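import Pool.Agent.Work.MP_64ea0f_cs.InterfaceF

set_option autoImplicit false

/-! # Block CMP (MP_64ea0f_al): components of the Coxeter graph -/

namespace Pool.CS

theorem cmp_thm : Stmt_CMP := by
  intro D J s hs
  let r : D.S → D.S → Prop := fun a b => a ∈ J ∧ b ∈ J ∧ D.k a b ≠ 0
  have hr : ∀ a b, r a b → r b a := fun a b h => ⟨h.2.1, h.1, by rw [D.symm b a]; exact h.2.2⟩
  have hrev : ∀ a b, Relation.ReflTransGen r a b → Relation.ReflTransGen r b a := by
    intro a b h
    induction h with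
    | refl => exact Relation.ReflTransGen.refl
    | tail _ h1 ih => exact (Relation.ReflTransGen.single (hr _ _ h1)).trans ih
  refine ⟨{t | t ∈ J ∧ Relation.ReflTransGen r s t}, fun t ht => ht.1,
    ⟨hs, Relation.ReflTransGen.refl⟩, ?_, ?_⟩
  · rintro K' hK' ⟨a, ha⟩ hK
    apply Set.Subset.antisymm hK'
    rintro b ⟨hb, hsb⟩
    have hab : Relation.ReflTransGen r a b := (hrev _ _ (hK' ha).2).trans hsb
    clear hsb
    revert hb
    induction hab with
    | refl => intro _; exact ha
    | @tail c d hac hcd ih =>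
      intro hd
      have hc : c ∈ K' := ih hcd.1
      by_contra hcon
      exact hcd.2.2 (hK c hc d ⟨⟨hd, (hK' hc).2.trans (Relation.ReflTransGen.single hcd)⟩, hcon⟩)
  · rintro a ⟨ha, hsa⟩ t ⟨ht, hnt⟩
    by_contra hcon
    exact hnt ⟨ht, hsa.trans (Relation.ReflTransGen.single ⟨ha, ht, hcon⟩)⟩

end Pool.CS
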