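import Pool.Agent.Work.MP_64ea0f_cs.InterfaceG2b

set_option autoImplicit false

/-! # LAT: the lattice lemma -/

namespace Pool.CS
namespace LATb
open Finset

section lin
variable {A : Type} [Fintype A]

/-- orthogonal decomposition over `ℚ` -/
theorem orth (Z : Submodule ℚ (A → ℚ)) (v : A → ℚ) :
    ∃ z ∈ Z, ∀ z' ∈ Z, ∑ α, (v α - z α) * z' α = 0 := by
  classical
  let Bf : LinearMap.BilinForm ℚ (A → ℚ) := dotProductBilin ℚ ℚ
  have hs : Bf.IsRefl := by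
    intro x y h
    change x ⬝ᵥ y = 0 at h
    change y ⬝ᵥ x = 0
    rw [dotProduct_comm]; exact h
  have hc : IsCompl Z (Bf.orthogonal Z) := by
    rw [LinearMap.BilinForm.isCompl_orthogonal_iff_disjoint hs, Submodule.disjoint_def]
    intro x hx hx'
    have h := hx' x hx
    change x ⬝ᵥ x = 0 at h
    exact dotProduct_self_eq_zero.1 h
  have hv : v ∈ Z ⊔ Bf.orthogonal Z := by rw [hc.sup_eq_top]; exact Submodule.mem_top
  obtain ⟨z, hz, w, hw, rfl⟩ := Submodule.mem_sup.1 hv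
  refine ⟨z, hz, fun z' hz' => ?_⟩
  have h := hw z' hz'
  change z' ⬝ᵥ w = 0 at h
  rw [← h]
  refine Finset.sum_congr rfl fun α _ => ?_
  simp only [Pi.add_apply]
  ring

/-- combinations -/
def cmb (ℓ : A → A → ℤ) : (A → ℚ) →ₗ[ℚ] (A → ℚ) where
  toFun r := fun α => ∑ β, r β * (ℓ β α : ℚ)
  map_add' r s := by
    funext α
    simp only [Pi.add_apply, add_mul, Finset.sum_add_distrib]
  map_smul' c r := by
    funext α
    simp only [Pi.smul_apply, smul_eq_mul, RingHom.id_apply, Finset.mul_sum, mul_assoc]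

theorem cmb_apply (ℓ : A → A → ℤ) (r : A → ℚ) (α : A) : cmb ℓ r α = ∑ β, r β * (ℓ β α : ℚ) := rfl

/-- the property of a good coefficient vector `r` for `d` -/
def gd (ℓ : A → A → ℤ) (R0 : Set A) : Submodule ℚ ((A → ℚ) × (A → ℚ)) where
  carrier := {p | (∀ ρ ∈ R0, p.1 ρ = cmb ℓ p.2 ρ) ∧
    ∀ r : A → ℚ, (∀ ρ ∈ R0, cmb ℓ r ρ = 0) → ∑ α, (p.1 α - cmb ℓ p.2 α) * cmb ℓ r α = 0}
  add_mem' := by
    rintro p p' ⟨h1, h2⟩ ⟨h1', h2'⟩
    refine ⟨fun ρ hρ => ?_, fun r hr => ?_⟩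
    · simp only [Prod.fst_add, Prod.snd_add, Pi.add_apply, map_add, h1 ρ hρ, h1' ρ hρ]
    · have a := h2 r hr
      have b := h2' r hr
      rw [← add_zero (0 : ℚ)]
      nth_rewrite 1 [← a]
      rw [← b, ← Finset.sum_add_distrib]
      refine Finset.sum_congr rfl fun α _ => ?_
      simp only [Prod.fst_add, Prod.snd_add, Pi.add_apply, map_add]
      ring
  zero_mem' := by
    refine ⟨fun ρ hρ => by simp, fun r hr => by simp⟩
  smul_mem' := by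
    rintro c p ⟨h1, h2⟩
    refine ⟨fun ρ hρ => ?_, fun r hr => ?_⟩
    · simp only [Prod.smul_fst, Prod.smul_snd, Pi.smul_apply, map_smul, h1 ρ hρ]
    · have a := h2 r hr
      rw [← mul_zero c, ← a, Finset.mul_sum]
      refine Finset.sum_congr rfl fun α _ => ?_
      simp only [Prod.smul_fst, Prod.smul_snd, Pi.smul_apply, map_smul, smul_eq_mul]
      ring

theorem exists_gd (ℓ : A → A → ℤ) (R0 : Set A) (d : A → ℚ)
    (hd : ∃ r : A → ℚ, ∀ ρ ∈ R0, d ρ = cmb ℓ r ρ) : ∃ r, (d, r) ∈ gd ℓ R0 := by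
  obtain ⟨r0, hr0⟩ := hd
  -- the space of combinations vanishing on `R0`
  let Z : Submodule ℚ (A → ℚ) := Submodule.map (cmb ℓ)
    { carrier := {r | ∀ ρ ∈ R0, cmb ℓ r ρ = 0}
      add_mem' := by
        intro a b ha hb ρ hρ
        rw [map_add, Pi.add_apply, ha ρ hρ, hb ρ hρ, add_zero]
      zero_mem' := by intro ρ hρ; simp
      smul_mem' := by
        intro c a ha ρ hρ
        rw [map_smul, Pi.smul_apply, ha ρ hρ, smul_zero] }
  obtain ⟨z, ⟨r1, hr1, hz1⟩, hz⟩ := orth Z (d - cmb ℓ r0)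
  refine ⟨r0 + r1, fun ρ hρ => ?_, fun r hr => ?_⟩
  · show d ρ = cmb ℓ (r0 + r1) ρ
    rw [map_add, Pi.add_apply, hr0 ρ hρ, hr1 ρ hρ, add_zero]
  · have := hz (cmb ℓ r) ⟨r, hr, rfl⟩
    rw [← this]
    refine Finset.sum_congr rfl fun α _ => ?_
    rw [← hz1, map_add]
    simp only [Pi.add_apply, Pi.sub_apply]
    ring

/-- a linear choice -/
theorem exists_lin (ℓ : A → A → ℤ) (R0 : Set A) : ∃ S : (A → ℚ) →ₗ[ℚ] (A → ℚ), ∀ d : A → ℚ,
    (∃ r : A → ℚ, ∀ ρ ∈ R0, d ρ = cmb ℓ r ρ) → (d, S d) ∈ gd ℓ R0 := by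
  let W := gd ℓ R0
  let f : W →ₗ[ℚ] (A → ℚ) := (LinearMap.fst ℚ (A → ℚ) (A → ℚ)).comp W.subtype
  obtain ⟨g, hg⟩ := LinearMap.exists_rightInverse_of_surjective f.rangeRestrict f.range_rangeRestrict
  let h : f.range →ₗ[ℚ] (A → ℚ) := ((LinearMap.snd ℚ (A → ℚ) (A → ℚ)).comp W.subtype).comp g
  obtain ⟨S, hS⟩ := LinearMap.exists_extend h
  refine ⟨S, fun d hd => ?_⟩
  obtain ⟨r, hr⟩ := exists_gd ℓ R0 d hd
  have hd' : d ∈ f.range := ⟨⟨(d, r), hr⟩, rfl⟩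
  have e1 : S d = (g ⟨d, hd'⟩).1.2 := by
    have := LinearMap.congr_fun hS ⟨d, hd'⟩
    exact this
  have e2 : (g ⟨d, hd'⟩).1.1 = d := by
    have := LinearMap.congr_fun hg ⟨d, hd'⟩
    exact congrArg Subtype.val this
  have e3 : (d, S d) = (g ⟨d, hd'⟩).1 := by
    rw [e1]; exact Prod.ext e2.symm rfl
  rw [e3]
  exact (g ⟨d, hd'⟩).2

/-- common denominator of a rational linear map -/
theorem exists_den (S : (A → ℚ) →ₗ[ℚ] (A → ℚ)) : ∃ e : ℕ, 0 < e ∧ ∀ d : A → ℤ, ∀ α, ∃ m : ℤ,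
    (e : ℚ) * S (fun β => (d β : ℚ)) α = m := by
  classical
  let c : A → A → ℚ := fun β α => S (Pi.single β 1) α
  refine ⟨∏ β, ∏ α, (c β α).den, Finset.prod_pos fun β _ => Finset.prod_pos fun α _ => (c β α).pos,
    fun d α => ?_⟩
  have hd : (fun β => (d β : ℚ)) = ∑ β, (d β : ℚ) • (Pi.single β 1 : A → ℚ) := by
    funext γ
    rw [Finset.sum_apply, Finset.sum_eq_single γ]
    · simp
    · intro β _ hβ
      simp [Ne.symm hβ]
    · intro h; exact absurd (Finset.mem_univ _) h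
  have hc : ∀ β, ∃ m : ℤ, ((∏ β, ∏ α, (c β α).den : ℕ) : ℚ) * c β α = m := by
    intro β
    have h1 : (c β α).den ∣ ∏ β, ∏ α, (c β α).den :=
      (Finset.dvd_prod_of_mem (fun α => (c β α).den) (Finset.mem_univ α)).trans
        (Finset.dvd_prod_of_mem (fun β => ∏ α, (c β α).den) (Finset.mem_univ β))
    obtain ⟨k, hk⟩ := h1
    refine ⟨k * (c β α).num, ?_⟩
    rw [hk]
    push_cast
    have := Rat.mul_den_eq_num (c β α)
    rw [← this]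
    ring
  choose m hm using hc
  refine ⟨∑ β, d β * m β, ?_⟩
  rw [hd, map_sum, Finset.sum_apply, Finset.mul_sum]
  push_cast
  refine Finset.sum_congr rfl fun β _ => ?_
  rw [map_smul, Pi.smul_apply, smul_eq_mul]
  have := hm β
  rw [← this]
  simp only [c]
  push_cast
  ring

/-- the integral form, for one set `R0` -/
theorem lattice1 (ℓ : A → A → ℤ) (q N : ℕ) (hq : 0 < q) (hN : 0 < N) (R0 : Set A) : ∃ E : ℕ, 0 < E ∧ N ∣ E ∧
    ∀ d : A → ℤ, (∀ α, (E : ℤ) ∣ d α) → (∃ r : A → ℚ, ∀ ρ ∈ R0, (d ρ : ℚ) = ∑ β, r β * (ℓ β ρ : ℚ)) →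
    ∃ n : A → ℤ, (∀ α, (N : ℤ) ∣ n α) ∧ (∀ ρ ∈ R0, d ρ - q * ∑ β, n β * ℓ β ρ = 0) ∧
      ∀ r : A → ℚ, (∀ ρ ∈ R0, ∑ β, r β * (ℓ β ρ : ℚ) = 0) →
        ∑ α, (((d α - q * ∑ β, n β * ℓ β α : ℤ)) : ℚ) * ∑ β, r β * (ℓ β α : ℚ) = 0 := by
  obtain ⟨S, hS⟩ := exists_lin ℓ R0
  obtain ⟨e, he, hden⟩ := exists_den S
  refine ⟨N * q * e, by positivity, ⟨q * e, by ring⟩, fun d hE hd => ?_⟩
  choose d' hd' using hE
  choose m hm using hden d'
  have hSd : ∀ α, S (fun β => (d β : ℚ)) α = q * (N * m α : ℤ) := by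
    intro α
    have e1 : (fun β => (d β : ℚ)) = ((N * q * e : ℕ) : ℚ) • (fun β => (d' β : ℚ)) := by
      funext β
      rw [Pi.smul_apply, smul_eq_mul, hd' β]
      push_cast
      ring
    rw [e1, map_smul, Pi.smul_apply, smul_eq_mul]
    have := hm α
    push_cast at this ⊢
    rw [← this]
    ring
  obtain ⟨g1, g2⟩ := hS (fun β => (d β : ℚ)) hd
  have hcm : ∀ α, cmb ℓ (S (fun β => (d β : ℚ))) α = ((q * ∑ β, (N * m β) * ℓ β α : ℤ) : ℚ) := by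
    intro α
    rw [cmb_apply]
    push_cast
    rw [Finset.mul_sum]
    refine Finset.sum_congr rfl fun β _ => ?_
    rw [hSd β]
    push_cast
    ring
  refine ⟨fun β => N * m β, fun α => ⟨m α, rfl⟩, fun ρ hρ => ?_, fun r hr => ?_⟩
  · have h1 := g1 ρ hρ
    rw [hcm] at h1
    have h2 : d ρ = q * ∑ β, (N * m β) * ℓ β ρ := by
      have h1' : (d ρ : ℚ) = ((q * ∑ β, (N * m β) * ℓ β ρ : ℤ) : ℚ) := h1
      exact_mod_cast h1'
    rw [h2, sub_self]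
  · have h1 := g2 r hr
    rw [← h1]
    refine Finset.sum_congr rfl fun α _ => ?_
    rw [hcm, Int.cast_sub, cmb_apply]

/-- for all sets -/
theorem lattice (ℓ : A → A → ℤ) (q N : ℕ) (hq : 0 < q) (hN : 0 < N) : ∃ E : ℕ, 0 < E ∧ N ∣ E ∧
    ∀ R0 : Set A,
    ∀ d : A → ℤ, (∀ α, (E : ℤ) ∣ d α) → (∃ r : A → ℚ, ∀ ρ ∈ R0, (d ρ : ℚ) = ∑ β, r β * (ℓ β ρ : ℚ)) →
    ∃ n : A → ℤ, (∀ α, (N : ℤ) ∣ n α) ∧ (∀ ρ ∈ R0, d ρ - q * ∑ β, n β * ℓ β ρ = 0) ∧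
      ∀ r : A → ℚ, (∀ ρ ∈ R0, ∑ β, r β * (ℓ β ρ : ℚ) = 0) →
        ∑ α, (((d α - q * ∑ β, n β * ℓ β α : ℤ)) : ℚ) * ∑ β, r β * (ℓ β α : ℚ) = 0 := by
  classical
  choose E h1 h2 h3 using lattice1 ℓ q N hq hN
  refine ⟨N * ∏ R0 : Set A, E R0, Nat.mul_pos hN (Finset.prod_pos fun R0 _ => h1 R0), ⟨_, rfl⟩,
    fun R0 d hd => h3 R0 d fun α => ?_⟩
  have : E R0 ∣ N * ∏ R0 : Set A, E R0 :=
    (Finset.dvd_prod_of_mem E (Finset.mem_univ R0)).mul_left N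
  exact (Int.natCast_dvd_natCast.2 this).trans (hd α)

end lin

variable {D : Rd}

/-- the sum over the directions does not depend on the representatives -/
theorem dirs_sum {δ : D.V} {A A' : Finset D.V} (hA : D.Dirs δ A) (hA' : D.Dirs δ A') (f : D.V → ℝ)
    (hf : ∀ φ ∈ D.Fd δ, ∀ t : ℝ, φ + t • δ ∈ D.Fd δ → f (φ + t • δ) = f φ) :
    ∑ α ∈ A, f α = ∑ α ∈ A', f α := by
  have key : ∀ α ∈ A, ∃ β ∈ A', ∃ t : ℝ, α = β + t • δ := by
    intro α hα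
    obtain ⟨β, ⟨h1, h2⟩, -⟩ := hA'.2 α (hA.1 α hα)
    exact ⟨β, h1, h2⟩
  choose g hg1 hg2 using key
  refine Finset.sum_bij g hg1 ?_ ?_ ?_
  · intro a ha b hb hab
    obtain ⟨s, hs⟩ := hg2 a ha
    obtain ⟨t, ht⟩ := hg2 b hb
    obtain ⟨γ, -, hu⟩ := hA.2 b (hA.1 b hb)
    have h1 := hu b ⟨hb, 0, by rw [zero_smul, add_zero]⟩
    have h2 := hu a ⟨ha, t - s, by
      rw [ht, ← hab]
      nth_rewrite 2 [hs]
      rw [sub_smul]; abel⟩
    rw [h1, h2]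
  · intro b hb
    obtain ⟨α, ⟨h1, t, h2⟩, -⟩ := hA.2 b (hA'.1 b hb)
    refine ⟨α, h1, ?_⟩
    obtain ⟨s, hs⟩ := hg2 α h1
    obtain ⟨γ, -, hu⟩ := hA'.2 b (hA'.1 b hb)
    have e1 := hu b ⟨hb, 0, by rw [zero_smul, add_zero]⟩
    have e2 := hu (g α h1) ⟨hg1 α h1, t + s, by
      rw [h2]
      nth_rewrite 1 [hs]
      rw [add_smul]; abel⟩
    rw [e1, e2]
  · intro a ha
    obtain ⟨s, hs⟩ := hg2 a ha
    have h1 := hf (g a ha) (hA'.1 _ (hg1 a ha)) s (by rw [← hs]; exact hA.1 a ha)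
    rw [← hs] at h1
    exact h1

/-- the form as a linear functional -/
noncomputable def bl (α : D.V) : D.V →ₗ[ℝ] ℝ where
  toFun v := D.B v α
  map_add' v w := by
    unfold Rd.B bform
    simp only [Pi.add_apply, add_mul, Finset.sum_add_distrib]
  map_smul' c v := by
    unfold Rd.B bform
    simp only [Pi.smul_apply, smul_eq_mul, RingHom.id_apply, Finset.mul_sum, mul_assoc]

theorem bl_apply (α v : D.V) : bl α v = D.B v α := rfl

end LATb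

open LATb in
theorem lat_thm : Stmt_THR → Stmt_ORT → Stmt_LTR → Stmt_RAT → Stmt_LAT := by
  classical
  intro thr ort ltr rat D δ hδ M hM hMf N hN
  obtain ⟨q, hq, hLTR⟩ := ltr D δ hδ M hM hMf
  -- a system of directions
  obtain ⟨A, hA⟩ : ∃ A, D.Dirs δ A := by
    by_cases he : ∃ φ, φ ∈ D.Fd δ
    · obtain ⟨φ, hφ⟩ := he
      obtain ⟨-, -, -, -, -, -, -, -, h9, -⟩ := thr D δ hδ φ hφ
      exact h9
    · refine ⟨∅, fun α h => absurd h (Finset.notMem_empty α), fun φ h => absurd ⟨φ, h⟩ he⟩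
  obtain ⟨hT, hI, hR⟩ := hLTR A hA
  have hcp : ∀ φ ∈ D.Fd δ, 0 < D.cst δ φ := fun φ hφ => (thr D δ hδ φ hφ).1
  have hce : ∀ φ ∈ D.Fd δ, ∀ t : ℝ, φ + t • δ ∈ D.Fd δ → D.cst δ (φ + t • δ) = D.cst δ φ := by
    intro φ hφ t ht
    obtain ⟨-, -, h3, -⟩ := thr D δ hδ φ hφ
    exact (h3 t ht.1).1
  have hng : ∀ φ ∈ D.Fd δ, -φ ∈ D.Fd δ ∧ D.cst δ (-φ) = D.cst δ φ := by
    intro φ hφ
    obtain ⟨-, -, -, h4, h5, -⟩ := thr D δ hδ φ hφ
    exact ⟨h4, h5⟩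
  -- the integral matrix
  have hI' : ∀ (β α : A), ∃ i : ℤ, 2 * D.cst δ β.1 * D.B α.1 β.1 = i * D.cst δ α.1 :=
    fun β α => hI β.1 β.2 α.1 (hA.1 _ α.2)
  choose L hL using hI'
  obtain ⟨E, hE, hNE, hlat⟩ := lattice L q N hq hN
  refine ⟨E, hE, ?_⟩
  intro T0 hT0 d hdir hodd hdvd hθ
  obtain ⟨θ, hθδ, hθT⟩ := hθ
  -- directions of `T0`
  let R0 : Set A := {a | ∃ φ ∈ T0, ∃ t : ℝ, φ = a.1 + t • δ}
  have hdR : ∀ ρ : A, ρ ∈ R0 → (d ρ.1 : ℝ) * D.cst δ ρ.1 = θ ρ.1 := by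
    rintro ρ ⟨φ, hφ, t, rfl⟩
    have h1 := hθT _ hφ
    have hf := hT0 hφ
    have hρ := hA.1 _ ρ.2
    rw [hdir _ hρ t hf, hce _ hρ t hf, map_add, map_smul, hθδ, smul_zero, add_zero] at h1
    exact h1
  -- functionals as combinations of the rows of `L`
  have hcomb : ∀ χ' : D.V →ₗ[ℝ] ℝ, χ' δ = 0 → ∃ r : A → ℝ, ∀ α : A,
      χ' α.1 / D.cst δ α.1 = ∑ β, r β * (L β α : ℝ) := by
    intro χ' h0
    obtain ⟨r, hr⟩ := hR χ' h0
    refine ⟨fun β => r β.1 / (2 * D.cst δ β.1), fun α => ?_⟩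
    have hα := hcp _ (hA.1 _ α.2)
    rw [div_eq_iff hα.ne', hr α.1 (hA.1 _ α.2), Finset.sum_mul, ← Finset.sum_coe_sort A]
    refine Finset.sum_congr rfl fun β _ => ?_
    have hβ := hcp _ (hA.1 _ β.2)
    have := hL β α
    rw [mul_assoc (r β.1 / (2 * D.cst δ β.1)), ← this]
    field_simp
  -- rationality
  have hdQ : ∃ r : A → ℚ, ∀ ρ ∈ R0, (d ρ.1 : ℚ) = ∑ β, r β * (L β ρ : ℚ) := by
    obtain ⟨r, hr⟩ := hcomb θ hθδ
    have := (rat A A (fun β α => (L β α : ℚ)) R0).2 (fun α => (d α.1 : ℚ)) ⟨r, fun ρ hρ => ?_⟩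
    · exact this
    · have h1 := hdR ρ hρ
      have h2 := hr ρ
      rw [← h1, mul_div_assoc, div_self (hcp _ (hA.1 _ ρ.2)).ne', mul_one] at h2
      push_cast
      exact h2
  obtain ⟨n, hn1, hn2, hn3⟩ := hlat R0 (fun α => d α.1) (fun α => hdvd _ (hA.1 _ α.2)) hdQ
  -- the translation
  let n' : D.V → ℤ := fun v => if h : v ∈ A then n ⟨v, h⟩ else 0
  have hn' : ∀ β : A, n' β.1 = n β := by
    intro β
    simp only [n', β.2, dif_pos]
  obtain ⟨t, htM, htδ, htp, htd⟩ := hT n'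
  let χ : D.V →ₗ[ℝ] ℝ := ∑ α ∈ A, ((n' α : ℝ) * (2 * q * D.cst δ α)) • bl α
  have hχ : ∀ v, χ v = ∑ α ∈ A, n' α * (2 * q * D.cst δ α * D.B v α) := by
    intro v
    simp only [χ, LinearMap.sum_apply, LinearMap.smul_apply, smul_eq_mul, bl_apply]
    refine Finset.sum_congr rfl fun α _ => ?_
    ring
  have hχδ : χ δ = 0 := by
    rw [hχ]
    refine Finset.sum_eq_zero fun α hα => ?_
    have h1 := (((ort D).1 δ hδ).1 α (hA.1 α hα))
    rw [D.B_symm, h1]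
    ring
  -- integrality of `χ`
  have hχi : ∀ φ, ∃ i : ℤ, φ ∈ D.Fd δ → χ φ = i * D.cst δ φ := by
    intro φ
    by_cases hφ : φ ∈ D.Fd δ
    · have hh : ∀ α : A, ∃ i : ℤ, 2 * D.cst δ α.1 * D.B φ α.1 = i * D.cst δ φ := fun α => hI α.1 α.2 φ hφ
      choose i hi using hh
      refine ⟨∑ α : A, n α * q * i α, fun _ => ?_⟩
      rw [hχ, ← Finset.sum_coe_sort A]
      push_cast
      rw [Finset.sum_mul]
      refine Finset.sum_congr rfl fun α _ => ?_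
      have := hi α
      rw [hn' α, mul_assoc ((n α : ℝ) * q), ← this]
      ring
    · exact ⟨0, fun h => absurd h hφ⟩
  choose ci hci using hχi
  have hsh : ∀ φ ∈ D.Fd δ, ∀ t : ℝ, φ + t • δ ∈ D.Fd δ → ci (φ + t • δ) = ci φ := by
    intro φ hφ t ht
    have h1 := hci _ ht
    rw [map_add, map_smul, hχδ, smul_zero, add_zero, hce φ hφ t ht, hci φ hφ] at h1
    have h2 := mul_right_cancel₀ (hcp φ hφ).ne' h1
    exact_mod_cast h2.symm
  have hdirν : ∀ φ ∈ D.Fd δ, ∀ t : ℝ, φ + t • δ ∈ D.Fd δ →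
      d (φ + t • δ) - ci (φ + t • δ) = d φ - ci φ := by
    intro φ hφ t ht
    rw [hdir φ hφ t ht, hsh φ hφ t ht]
  -- values on `A`
  have hcA : ∀ α : A, ci α.1 = q * ∑ β, n β * L β α := by
    intro α
    have hα := hcp _ (hA.1 _ α.2)
    have h1 := hci α.1 (hA.1 _ α.2)
    rw [hχ, ← Finset.sum_coe_sort A] at h1
    have h2 : ∑ β : A, (n' β.1 : ℝ) * (2 * q * D.cst δ β.1 * D.B α.1 β.1)
        = ((q * ∑ β, n β * L β α : ℤ) : ℝ) * D.cst δ α.1 := by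
      push_cast
      rw [Finset.mul_sum, Finset.sum_mul]
      refine Finset.sum_congr rfl fun β _ => ?_
      have := hL β α
      rw [hn' β]
      have e : (n β : ℝ) * (2 * q * D.cst δ β.1 * D.B α.1 β.1)
          = (n β : ℝ) * q * (2 * D.cst δ β.1 * D.B α.1 β.1) := by ring
      rw [e, this]
      ring
    rw [h2] at h1
    have h3 := mul_right_cancel₀ hα.ne' h1
    exact_mod_cast h3.symm
  have hrep : ∀ φ ∈ D.Fd δ, ∃ α : A, (∃ t : ℝ, φ = α.1 + t • δ) ∧ d φ - ci φ = d α.1 - ci α.1 := by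
    intro φ hφ
    obtain ⟨α, ⟨h1, t, h2⟩, -⟩ := hA.2 φ hφ
    refine ⟨⟨α, h1⟩, ⟨t, h2⟩, ?_⟩
    rw [h2] at hφ ⊢
    exact hdirν α (hA.1 α h1) t hφ
  refine ⟨t, htM, htδ, htp, χ, hχδ, fun φ hφ => by rw [htd φ hφ, hχ], fun φ => d φ - ci φ, ?_, hdirν,
    ?_, ?_, ?_, ?_⟩
  · intro φ hφ
    rw [hci φ hφ]
    push_cast
    ring
  · intro φ hφ
    obtain ⟨h1, h2⟩ := hng φ hφ
    have h3 := hci _ h1
    rw [map_neg, h2, hci φ hφ] at h3
    have h4 : (-(ci φ : ℝ)) * D.cst δ φ = (ci (-φ) : ℝ) * D.cst δ φ := by rw [← h3]; ring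
    have h5 := mul_right_cancel₀ (hcp φ hφ).ne' h4
    have h6 : -ci φ = ci (-φ) := by exact_mod_cast h5
    show d (-φ) - ci (-φ) = -(d φ - ci φ)
    rw [hodd φ hφ, ← h6]
    ring
  · intro φ hφ
    obtain ⟨α, -, h⟩ := hrep φ hφ
    show (N : ℤ) ∣ d φ - ci φ
    rw [h, hcA α]
    refine dvd_sub ?_ ?_
    · exact (Int.natCast_dvd_natCast.2 hNE).trans (hdvd _ (hA.1 _ α.2))
    · exact Dvd.dvd.mul_left (Finset.dvd_sum fun β _ => (hn1 β).mul_right _) _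
  · intro φ hφ
    obtain ⟨α, ⟨t, ht⟩, h⟩ := hrep φ (hT0 hφ)
    show d φ - ci φ = 0
    rw [h, hcA α]
    exact hn2 α ⟨φ, hφ, t, ht⟩
  · intro A' hA' χ' h0 hz
    have hs : ∑ α ∈ A', ((d α - ci α : ℤ) : ℝ) * χ' α / D.cst δ α
        = ∑ α ∈ A, ((d α - ci α : ℤ) : ℝ) * χ' α / D.cst δ α := by
      refine dirs_sum hA' hA _ ?_
      intro φ hφ t ht
      rw [hdirν φ hφ t ht, hce φ hφ t ht, map_add, map_smul, h0, smul_zero, add_zero]
    show ∑ α ∈ A', ((d α - ci α : ℤ) : ℝ) * χ' α / D.cst δ α = 0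
    rw [hs, ← Finset.sum_coe_sort A]
    obtain ⟨r, hr⟩ := hcomb χ' h0
    have h1 := (rat A A (fun β α => (L β α : ℚ)) R0).1 (fun α => ((d α.1 - ci α.1 : ℤ) : ℚ)) ?_ r ?_
    · rw [← h1]
      refine Finset.sum_congr rfl fun α _ => ?_
      rw [mul_div_assoc, hr α]
      push_cast
      ring
    · intro r' hr'
      have := hn3 r' hr'
      rw [← this]
      refine Finset.sum_congr rfl fun α _ => ?_
      rw [hcA α]
    · rintro ρ ⟨φ, hφ, t, rfl⟩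
      have h2 := hr ρ
      have h3 := hz _ hφ
      rw [map_add, map_smul, h0, smul_zero, add_zero] at h3
      rw [h3, zero_div] at h2
      push_cast
      exact h2.symm

end Pool.CS
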