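import Pool.Agent.Work.MP_64ea0f_cs.InterfaceG3

set_option autoImplicit false

/-! # MSA: algebra of multiple shifts -/

namespace Pool.CS
namespace MSAb

variable {D : Rd}

theorem step (thr : Stmt_THR) {δ : D.V} (hδ : D.Af δ) {φ : D.V} (hφ : φ ∈ D.Fd δ) (i : ℤ) :
    φ + ((i : ℝ) * D.cst δ φ) • δ ∈ D.Fd δ ∧ D.cst δ (φ + ((i : ℝ) * D.cst δ φ) • δ) = D.cst δ φ := by
  obtain ⟨-, h2, h3, -⟩ := thr D δ hδ φ hφ
  have h := (h2 ((i : ℝ) * D.cst δ φ)).2 ⟨i, rfl⟩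
  exact ⟨(h3 _ h).2, (h3 _ h).1⟩

theorem out_fd (ord : Stmt_ORD) {Δ : Finset D.V} {δ : D.V} (hδ : D.Af δ) (hΔ : ∀ δ' ∈ Δ, D.Af δ')
    (ho : ∀ δ' ∈ Δ, δ ≠ δ' → D.B δ δ' = 0) (hn : δ ∉ Δ) {φ : D.V} (hφ : φ ∈ D.Fd δ) :
    ∀ δ' ∈ Δ, φ ∉ D.Fd δ' := by
  intro δ' h'
  have hne : δ ≠ δ' := by rintro rfl; exact hn h'
  exact ((ord D δ δ' hδ (hΔ δ' h')).2 (ho δ' h' hne) hne φ hφ).1

/-- bigness at `δ ∉ Δ`, orthogonal to `Δ` -/
theorem big_of (ord : Stmt_ORD) {Δ : Finset D.V} {δ : D.V} (hδ : D.Af δ) (hΔ : ∀ δ' ∈ Δ, D.Af δ')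
    (ho : ∀ δ' ∈ Δ, δ ≠ δ' → D.B δ δ' = 0) (hn : δ ∉ Δ) {x y : Set D.V}
    (out : ∀ φ ∈ D.Rt, (∀ δ ∈ Δ, φ ∉ D.Fd δ) → (φ ∈ x ↔ φ ∈ y)) :
    (D.Big x δ → D.Big y δ) ∧ (D.Big y δ → D.Big x δ) := by
  have key : ∀ μ ∈ D.Rt, D.B μ δ < 0 → (μ ∈ x ↔ μ ∈ y) := by
    intro μ hμ hb
    refine out μ hμ ?_
    intro δ' h' hf
    have hne : δ' ≠ δ := by rintro rfl; exact hn h'
    have h0 : D.B δ' δ = 0 := by rw [D.B_symm]; exact ho δ' h' (Ne.symm hne)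
    have := ((ord D δ' δ (hΔ δ' h') hδ).2 h0 hne μ hf).2.1
    linarith
  exact ⟨fun h μ hμ hb => (key μ hμ hb).1 (h μ hμ hb), fun h μ hμ hb => (key μ hμ hb).2 (h μ hμ hb)⟩

theorem inv (iva : Stmt_IVA) (thr : Stmt_THR) {K : Set D.S} {N : ℕ} {Δ : Finset D.V} {ν : D.V → D.V → ℤ}
    {x y : Set D.V} (h : D.MSh K N Δ ν x y) : D.MSh K N Δ (fun δ φ => -ν δ φ) y x := by
  refine ⟨h.vy, h.vx, fun δ hδ => ?_, h.ort, fun δ hδ => ?_, fun φ hφ hn => (h.out φ hφ hn).symm, ?_⟩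
  · obtain ⟨a, b, c, d⟩ := h.af δ hδ
    exact ⟨a, b, d, c⟩
  · exact ((iva D K δ (h.af δ hδ).1).2.1 N (ν δ) (h.shd δ hδ)).1
  · intro δ hδ φ hφ
    have ha := (h.af δ hδ).1
    obtain ⟨h1, h2⟩ := step thr ha hφ (ν δ φ)
    have e1 : φ - (((-ν δ φ : ℤ) : ℝ) * D.cst δ φ) • δ = φ + ((ν δ φ : ℝ) * D.cst δ φ) • δ := by
      push_cast
      rw [neg_mul, neg_smul, sub_neg_eq_add]
    have h3 := h.inn δ hδ _ h1
    rw [(h.shd δ hδ).dir φ hφ _ h1, h2, add_sub_cancel_right] at h3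
    show φ ∈ x ↔ φ - (((-ν δ φ : ℤ) : ℝ) * D.cst δ φ) • δ ∈ y
    rw [e1]
    exact h3.symm

open Classical in
theorem comp (iva : Stmt_IVA) (thr : Stmt_THR) (ord : Stmt_ORD) {K : Set D.S} {N : ℕ} {Δ Δ' : Finset D.V}
    {ν ν' : D.V → D.V → ℤ} {x y z : Set D.V} (h : D.MSh K N Δ ν x y) (h' : D.MSh K N Δ' ν' y z)
    (ho : ∀ δ ∈ Δ, ∀ δ' ∈ Δ', δ ≠ δ' → D.B δ δ' = 0) : D.MR K N x z := by
  have hA : ∀ δ ∈ Δ, D.Af δ := fun δ hδ => (h.af δ hδ).1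
  have hA' : ∀ δ ∈ Δ', D.Af δ := fun δ hδ => (h'.af δ hδ).1
  have ho' : ∀ δ ∈ Δ', ∀ δ' ∈ Δ, δ ≠ δ' → D.B δ δ' = 0 := by
    intro δ hδ δ' hδ' hne
    rw [D.B_symm]; exact ho δ' hδ' δ hδ (Ne.symm hne)
  refine ⟨Δ ∪ Δ', fun δ φ => (if δ ∈ Δ then ν δ φ else 0) + (if δ ∈ Δ' then ν' δ φ else 0), ?_⟩
  refine ⟨h.vx, h'.vy, ?_, ?_, ?_, ?_, ?_⟩
  · intro δ hδ
    rcases Finset.mem_union.1 hδ with h1 | h1
    · obtain ⟨a, b, c, d⟩ := h.af δ h1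
      refine ⟨a, b, c, ?_⟩
      by_cases h2 : δ ∈ Δ'
      · exact (h'.af δ h2).2.2.2
      · exact (big_of ord a hA' (ho δ h1) h2 h'.out).1 d
    · obtain ⟨a, b, c, d⟩ := h'.af δ h1
      refine ⟨a, b, ?_, d⟩
      by_cases h2 : δ ∈ Δ
      · exact (h.af δ h2).2.2.1
      · exact (big_of ord a hA (ho' δ h1) h2 h.out).2 c
  · intro δ hδ δ' hδ' hne
    rcases Finset.mem_union.1 hδ with h1 | h1 <;> rcases Finset.mem_union.1 hδ' with h2 | h2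
    · exact h.ort δ h1 δ' h2 hne
    · exact ho δ h1 δ' h2 hne
    · exact ho' δ h1 δ' h2 hne
    · exact h'.ort δ h1 δ' h2 hne
  · intro δ hδ
    have ha : D.Af δ := by
      rcases Finset.mem_union.1 hδ with h1 | h1
      · exact hA δ h1
      · exact hA' δ h1
    obtain ⟨i0, -, i2, -⟩ := iva D K δ ha
    have s1 : D.Shd K N δ (fun φ => if δ ∈ Δ then ν δ φ else 0) := by
      by_cases h1 : δ ∈ Δ
      · simp only [h1, if_true]; exact h.shd δ h1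
      · simp only [h1, if_false]; exact i0 N
    have s2 : D.Shd K N δ (fun φ => if δ ∈ Δ' then ν' δ φ else 0) := by
      by_cases h1 : δ ∈ Δ'
      · simp only [h1, if_true]; exact h'.shd δ h1
      · simp only [h1, if_false]; exact i0 N
    exact i2 N _ _ s1 s2
  · intro φ hφ hn
    rw [h.out φ hφ fun δ hδ => hn δ (Finset.mem_union_left _ hδ),
      h'.out φ hφ fun δ hδ => hn δ (Finset.mem_union_right _ hδ)]
  · intro δ hδ φ hφ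
    have ha : D.Af δ := by
      rcases Finset.mem_union.1 hδ with h1 | h1
      · exact hA δ h1
      · exact hA' δ h1
    -- step A
    have sA : ∀ ψ ∈ D.Fd δ, (ψ ∈ z ↔
        ψ - (((if δ ∈ Δ' then ν' δ ψ else 0 : ℤ) : ℝ) * D.cst δ ψ) • δ ∈ y) := by
      intro ψ hψ
      by_cases h2 : δ ∈ Δ'
      · rw [if_pos h2]; exact h'.inn δ h2 ψ hψ
      · have h1 : δ ∈ Δ := by
          rcases Finset.mem_union.1 hδ with h1 | h1
          · exact h1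
          · exact absurd h1 h2
        rw [if_neg h2]
        have := h'.out ψ hψ.1 (out_fd ord ha hA' (ho δ h1) h2 hψ)
        simp only [Int.cast_zero, zero_mul, zero_smul, sub_zero]
        exact this.symm
    have sB : ∀ ψ ∈ D.Fd δ, (ψ ∈ y ↔
        ψ - (((if δ ∈ Δ then ν δ ψ else 0 : ℤ) : ℝ) * D.cst δ ψ) • δ ∈ x) := by
      intro ψ hψ
      by_cases h2 : δ ∈ Δ
      · rw [if_pos h2]; exact h.inn δ h2 ψ hψ
      · have h1 : δ ∈ Δ' := by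
          rcases Finset.mem_union.1 hδ with h1 | h1
          · exact absurd h1 h2
          · exact h1
        rw [if_neg h2]
        have := h.out ψ hψ.1 (out_fd ord ha hA (ho' δ h1) h2 hψ)
        simp only [Int.cast_zero, zero_mul, zero_smul, sub_zero]
        exact this.symm
    have hd : ∀ i : ℤ, (if δ ∈ Δ then ν δ (φ + ((i : ℝ) * D.cst δ φ) • δ) else 0)
        = (if δ ∈ Δ then ν δ φ else 0) := by
      intro i
      by_cases h2 : δ ∈ Δ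
      · rw [if_pos h2, if_pos h2]
        exact (h.shd δ h2).dir φ hφ _ (step thr ha hφ i).1
      · rw [if_neg h2, if_neg h2]
    obtain ⟨f1, f2⟩ := step thr ha hφ (-(if δ ∈ Δ' then ν' δ φ else 0))
    have e1 : φ - (((if δ ∈ Δ' then ν' δ φ else 0 : ℤ) : ℝ) * D.cst δ φ) • δ
        = φ + (((-(if δ ∈ Δ' then ν' δ φ else 0) : ℤ) : ℝ) * D.cst δ φ) • δ := by
      push_cast
      rw [neg_mul, neg_smul, sub_eq_add_neg]
    rw [sA φ hφ, e1, sB _ f1, hd, f2]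
    have e2 : φ + (((-(if δ ∈ Δ' then ν' δ φ else 0) : ℤ) : ℝ) * D.cst δ φ) • δ
        - (((if δ ∈ Δ then ν δ φ else 0 : ℤ) : ℝ) * D.cst δ φ) • δ
        = φ - ((((if δ ∈ Δ then ν δ φ else 0) + (if δ ∈ Δ' then ν' δ φ else 0) : ℤ) : ℝ) * D.cst δ φ) • δ := by
      rw [Int.cast_add, Int.cast_neg]
      module
    rw [e2]

open Classical in
theorem rem {K : Set D.S} {N : ℕ} {Δ : Finset D.V} {ν : D.V → D.V → ℤ}
    {x y : Set D.V} (h : D.MSh K N Δ ν x y) :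
    ∃ Δ', Δ' ⊆ Δ ∧ D.MSh K N Δ' ν x y ∧ ∀ δ ∈ Δ', ∃ φ ∈ D.Fd δ, ν δ φ ≠ 0 := by
  refine ⟨Δ.filter fun δ => ∃ φ ∈ D.Fd δ, ν δ φ ≠ 0, Finset.filter_subset _ _, ?_,
    fun δ hδ => (Finset.mem_filter.1 hδ).2⟩
  have sub : ∀ δ, δ ∈ (Δ.filter fun δ => ∃ φ ∈ D.Fd δ, ν δ φ ≠ 0) → δ ∈ Δ :=
    fun δ hδ => (Finset.mem_filter.1 hδ).1
  refine ⟨h.vx, h.vy, fun δ hδ => h.af δ (sub δ hδ), fun δ hδ δ' hδ' => h.ort δ (sub δ hδ) δ' (sub δ' hδ'),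
    fun δ hδ => h.shd δ (sub δ hδ), ?_, fun δ hδ => h.inn δ (sub δ hδ)⟩
  intro φ hφ hn
  by_cases he : ∃ δ ∈ Δ, φ ∈ D.Fd δ
  · obtain ⟨δ, hδ, hf⟩ := he
    have h0 : ν δ φ = 0 := by
      by_contra hne
      exact hn δ (Finset.mem_filter.2 ⟨hδ, φ, hf, hne⟩) hf
    have := h.inn δ hδ φ hf
    rw [h0] at this
    simp only [Int.cast_zero, zero_mul, zero_smul, sub_zero] at this
    exact this.symm
  · refine h.out φ hφ fun δ hδ hf => he ⟨δ, hδ, hf⟩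

theorem rfl' {K : Set D.S} {N : ℕ} {x : Set D.V} (hx : D.YJ K x) : D.MR K N x x := by
  refine ⟨∅, fun _ _ => 0, hx, hx, ?_, ?_, ?_, fun φ _ _ => Iff.rfl, ?_⟩
  · intro δ hδ; exact absurd hδ (Finset.notMem_empty δ)
  · intro δ hδ; exact absurd hδ (Finset.notMem_empty δ)
  · intro δ hδ; exact absurd hδ (Finset.notMem_empty δ)
  · intro δ hδ; exact absurd hδ (Finset.notMem_empty δ)

theorem dvd (iva : Stmt_IVA) {K : Set D.S} {N N' : ℕ} {x y : Set D.V} (hd : N ∣ N') (h : D.MR K N' x y) :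
    D.MR K N x y := by
  obtain ⟨Δ, ν, h⟩ := h
  exact ⟨Δ, ν, h.vx, h.vy, h.af, h.ort,
    fun δ hδ => (iva D K δ (h.af δ hδ).1).2.2.2.1 N N' (ν δ) hd (h.shd δ hδ), h.out, h.inn⟩

theorem two (thr : Stmt_THR) {K : Set D.S} {N : ℕ} (hN : 2 ≤ N) {x y : Set D.V}
    (h : D.MR K N x y) (hx : ∀ φ ∈ x, ∀ ψ ∈ x, φ ∉ y → ψ ∉ y → φ = ψ) : x = y := by
  obtain ⟨Δ₀, ν, h₀⟩ := h
  obtain ⟨Δ, -, h, hnt⟩ := rem h₀
  rcases Finset.eq_empty_or_nonempty Δ with he | ⟨δ, hδ⟩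
  · ext φ
    constructor
    · intro hφ
      have hr := h.vx.1.sub hφ
      refine (h.out φ hr fun δ hδ => ?_).1 hφ
      rw [he] at hδ; exact absurd hδ (Finset.notMem_empty δ)
    · intro hφ
      have hr := h.vy.1.sub hφ
      refine (h.out φ hr fun δ hδ => ?_).2 hφ
      rw [he] at hδ; exact absurd hδ (Finset.notMem_empty δ)
  · exfalso
    have ha := (h.af δ hδ).1
    -- a direction with positive shift
    obtain ⟨φ, hφ, hpos⟩ : ∃ φ ∈ D.Fd δ, 0 < ν δ φ := by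
      obtain ⟨φ, hφ, hne⟩ := hnt δ hδ
      rcases lt_or_gt_of_ne hne with hl | hg
      · obtain ⟨-, -, -, h4, -⟩ := thr D δ ha φ hφ
        refine ⟨-φ, h4, ?_⟩
        rw [(h.shd δ hδ).odd φ hφ]; omega
      · exact ⟨φ, hφ, hg⟩
    have h2 : 2 ≤ ν δ φ := by
      obtain ⟨k, hk⟩ := (h.shd δ hδ).dvd φ hφ
      have hk0 : 0 < k := by
        by_contra hk0
        have : (N : ℤ) * k ≤ 0 := mul_nonpos_of_nonneg_of_nonpos (by positivity) (by omega)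
        omega
      have hN' : (2 : ℤ) ≤ (N : ℤ) := by exact_mod_cast hN
      have : (2 : ℤ) * 1 ≤ (N : ℤ) * k := mul_le_mul hN' (by omega) (by norm_num) (by positivity)
      omega
    obtain ⟨-, -, -, -, -, -, h7, -⟩ := thr D δ ha φ hφ
    obtain ⟨j, hj⟩ := h7 x h.vx.1
    have hy : ∀ i : ℤ, φ + ((i : ℝ) * D.cst δ φ) • δ ∈ y ↔ j ≤ i - ν δ φ := by
      intro i
      obtain ⟨f1, f2⟩ := step thr ha hφ i
      rw [h.inn δ hδ _ f1, f2, (h.shd δ hδ).dir φ hφ _ f1, ← hj (i - ν δ φ)]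
      have e : φ + ((i : ℝ) * D.cst δ φ) • δ - ((ν δ φ : ℝ) * D.cst δ φ) • δ
          = φ + (((i - ν δ φ : ℤ) : ℝ) * D.cst δ φ) • δ := by
        push_cast
        module
      rw [e]
    have k0 := hx _ ((hj j).2 le_rfl) _ ((hj (j + 1)).2 (by omega))
      (fun hc => by have := (hy j).1 hc; omega) (fun hc => by have := (hy (j + 1)).1 hc; omega)
    -- then all threshold roots are equal
    have k1 : (D.cst δ φ) • δ = 0 := by
      have : (((j + 1 : ℤ) : ℝ) * D.cst δ φ) • δ = ((j : ℝ) * D.cst δ φ) • δ := (add_left_cancel k0).symm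
      have e : (((j + 1 : ℤ) : ℝ) * D.cst δ φ) • δ = ((j : ℝ) * D.cst δ φ) • δ + (D.cst δ φ) • δ := by
        push_cast
        module
      rw [e] at this
      exact left_eq_add.1 this.symm
    have k2 : φ + (((j - 1 : ℤ) : ℝ) * D.cst δ φ) • δ ∈ x := by
      have e : φ + (((j - 1 : ℤ) : ℝ) * D.cst δ φ) • δ = φ + ((j : ℝ) * D.cst δ φ) • δ := by
        rw [mul_smul, mul_smul, k1, smul_zero, smul_zero]
      rw [e]; exact (hj j).2 le_rfl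
    have := (hj (j - 1)).1 k2
    omega

theorem act (iva : Stmt_IVA) (thr : Stmt_THR) (bas : Stmt_BAS) (nrm : Stmt_NRM) (vx1 : Stmt_VX1)
    (yj1 : Stmt_YJ1) {K : Set D.S} (hK : Finite (D.par K)) {N : ℕ} {x y : Set D.V}
    (h : D.MR K N x y) {n : D.W} (hn : n ∈ D.NJ K) : D.MR K N (D.act n x) (D.act n y) := by
  classical
  obtain ⟨Δ, ν, h⟩ := h
  obtain ⟨-, -, -, -, bW, -, -, bR, -⟩ := bas D
  obtain ⟨-, -, -, -, nI, -, nK⟩ := nrm D K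
  obtain ⟨-, -, -, -, -, v6, -⟩ := vx1 D
  have yA := (yj1 D K hK).2.1
  have e1 : ∀ v, D.ρ n⁻¹ (D.ρ n v) = v := by
    intro v
    rw [← Module.End.mul_apply, ← map_mul, inv_mul_cancel, map_one, Module.End.one_apply]
  have e2 : ∀ v, D.ρ n (D.ρ n⁻¹ v) = v := by
    intro v
    rw [← Module.End.mul_apply, ← map_mul, mul_inv_cancel, map_one, Module.End.one_apply]
  have eB : ∀ v w, D.B v (D.ρ n w) = D.B (D.ρ n⁻¹ v) w := by
    intro v w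
    rw [← bW n (D.ρ n⁻¹ v) w, e2]
  have fdn : ∀ δ φ, φ ∈ D.Fd δ → D.ρ n φ ∈ D.Fd (D.ρ n δ) := by
    rintro δ φ ⟨hr, t, ht, hm⟩
    refine ⟨bR φ hr n, t, ht, ?_⟩
    have := bR _ hm n
    rwa [map_add, map_smul] at this
  have fdi : ∀ δ φ, φ ∈ D.Fd (D.ρ n δ) → D.ρ n⁻¹ φ ∈ D.Fd δ := by
    rintro δ φ ⟨hr, t, ht, hm⟩
    refine ⟨bR φ hr n⁻¹, t, ht, ?_⟩
    have := bR _ hm n⁻¹
    rwa [map_add, map_smul, e1] at this
  have bg : ∀ δ x, D.Big x δ → D.Big (D.act n x) (D.ρ n δ) := by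
    intro δ x hb μ hμ hlt
    rw [eB] at hlt
    rw [v6]
    exact hb _ (bR μ hμ n⁻¹) hlt
  refine ⟨Δ.image (D.ρ n), fun δ φ => ν (D.ρ n⁻¹ δ) (D.ρ n⁻¹ φ), yA n hn x h.vx, yA n hn y h.vy,
    ?_, ?_, ?_, ?_, ?_⟩
  · intro δ' hδ'
    obtain ⟨δ, hδ, rfl⟩ := Finset.mem_image.1 hδ'
    obtain ⟨⟨g, u, hu, hg⟩, hc, hbx, hby⟩ := h.af δ hδ
    refine ⟨⟨n * g, u, hu, ?_⟩, ?_, bg δ x hbx, bg δ y hby⟩
    · rw [hg, map_mul, Module.End.mul_apply]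
    · intro φ hφ hin
      rw [eB]
      obtain ⟨q1, q2⟩ := nK n⁻¹ (nI n hn) φ hφ hin
      exact hc _ q1 q2
  · intro δ₁ h₁ δ₂ h₂ hne
    obtain ⟨δ, hδ, rfl⟩ := Finset.mem_image.1 h₁
    obtain ⟨δ', hδ', rfl⟩ := Finset.mem_image.1 h₂
    rw [bW]
    exact h.ort δ hδ δ' hδ' (fun he => hne (by rw [he]))
  · intro δ' hδ'
    obtain ⟨δ, hδ, rfl⟩ := Finset.mem_image.1 hδ'
    have := (iva D K δ (h.af δ hδ).1).2.2.2.2 N (ν δ) (h.shd δ hδ) n hn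
    simpa only [e1] using this
  · intro φ hφ hnn
    rw [v6, v6]
    refine h.out _ (bR φ hφ n⁻¹) fun δ hδ hf => ?_
    have := fdn δ _ hf
    rw [e2] at this
    exact hnn (D.ρ n δ) (Finset.mem_image_of_mem _ hδ) this
  · intro δ' hδ' φ hφ
    obtain ⟨δ, hδ, rfl⟩ := Finset.mem_image.1 hδ'
    have hf := fdi δ φ hφ
    have hc : D.cst (D.ρ n δ) φ = D.cst δ (D.ρ n⁻¹ φ) := by
      obtain ⟨-, -, -, -, -, -, -, -, -, h10⟩ := thr D δ (h.af δ hδ).1 _ hf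
      have := (h10 n).2.2
      rwa [e2] at this
    rw [v6, v6, h.inn δ hδ _ hf]
    simp only [e1, map_sub, map_smul, hc]

end MSAb

theorem msa_thm : Stmt_IVA → Stmt_THR → Stmt_ORD → Stmt_BAS → Stmt_NRM → Stmt_VX1 → Stmt_YJ1 →
    Stmt_MSA := by
  intro iva thr ord bas nrm vx1 yj1 D K hK N
  refine ⟨?_, ?_, ?_, ?_, ?_, ?_, ?_⟩
  · intro Δ ν x y h
    exact MSAb.inv iva thr h
  · intro Δ ν Δ' ν' x y z h h' ho
    exact MSAb.comp iva thr ord h h' ho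
  · intro Δ ν x y h
    exact MSAb.rem h
  · intro x y h n hn
    exact MSAb.act iva thr bas nrm vx1 yj1 hK h hn
  · intro N' x y hd h
    exact MSAb.dvd iva hd h
  · intro hN x y h hx
    exact MSAb.two thr hN h hx
  · intro x hx
    exact MSAb.rfl' hx

end Pool.CS
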