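import Pool.Agent.Work.MP_64ea0f_cs.InterfaceG3

set_option autoImplicit false

/-! # RD2: reduced cores -/

namespace Pool.CS

theorem rd2_thm : Stmt_RD1 → Stmt_FR1 → Stmt_MSA → Stmt_RD2 := by
  intro rd1 fr1 msa D K hK C N ok
  obtain ⟨hinv, hcomp, hrem, -, -, -, -⟩ := msa D K hK N
  obtain ⟨fr, frx⟩ := fr1 D K hK C N ok
  obtain ⟨hC, hN, ok1, ok2, ok3⟩ := ok
  have p1 : ∀ z, D.Red K C N z → ∀ x Δ ν, D.MSh K N Δ ν z x → ∀ δ ∈ Δ, (∃ φ ∈ D.Fd δ, ν δ φ ≠ 0) →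
      D.Far K C x δ := by
    intro z hz x Δ ν hm δ hδ hn
    rcases ok3 Δ ν z x hm δ hδ hn with h | h
    · exact ⟨h.1, hz.2 δ h x ⟨Δ, ν, hm⟩⟩
    · exact h
  have msym : ∀ x y, D.MR K N x y → D.MR K N y x := by
    rintro x y ⟨Δ, ν, hm⟩
    exact ⟨Δ, _, hinv Δ ν x y hm⟩
  refine ⟨p1, ?_, ?_, ?_⟩
  · rintro z z' hz hz' x ⟨Δ₁, ν₁, h₁⟩ ⟨Δ₂, ν₂, h₂⟩
    obtain ⟨Δ₁', -, h₁', n₁⟩ := hrem Δ₁ ν₁ z x h₁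
    obtain ⟨Δ₂', -, h₂', n₂⟩ := hrem Δ₂ ν₂ z' x h₂
    have hx : D.YJ K x := h₁.vy
    have hmr : D.MR K N z z' := by
      refine hcomp Δ₁' ν₁ Δ₂' _ z x z' h₁' (hinv Δ₂' ν₂ z' x h₂') ?_
      intro δ hδ δ' hδ' hne
      exact frx x hx δ δ' (p1 z hz x Δ₁' ν₁ h₁' δ hδ (n₁ δ hδ))
        (p1 z' hz' x Δ₂' ν₂ h₂' δ' hδ' (n₂ δ' hδ')) hne
    obtain ⟨Δ, ν, h⟩ := hmr
    obtain ⟨Δ', -, h', n'⟩ := hrem Δ ν z z' h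
    refine ⟨Δ', ν, h', fun δ hδ => ?_⟩
    have hf : D.Far K C z' δ := p1 z hz z' Δ' ν h' δ hδ (n' δ hδ)
    exact ⟨⟨hf.1, hz'.2 δ hf z (msym z z' ⟨Δ', ν, h'⟩)⟩, hf⟩
  · rintro z z' w hz hz' ⟨Δ₁, ν₁, h₁⟩ ⟨Δ₂, ν₂, h₂⟩
    obtain ⟨Δ₁', -, h₁', n₁⟩ := hrem Δ₁ ν₁ z z' h₁
    refine hcomp Δ₁' ν₁ Δ₂ ν₂ z z' w h₁' h₂ ?_
    intro δ hδ δ' hδ' hne
    have hf : D.Far K C z' δ := p1 z hz z' Δ₁' ν₁ h₁' δ hδ (n₁ δ hδ)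
    have := (fr Δ₂ ν₂ z' w h₂ δ hf).1 δ' hδ' (Ne.symm hne)
    rw [D.B_symm]
    exact this
  · rintro u x ⟨Δ₂, ν₂, h₂⟩
    obtain ⟨z, Δ, ν, hz, hm, hfar⟩ := rd1 D K hK C N ⟨hC, hN, ok1, ok2, ok3⟩ u h₂.vx
    have hm' := hinv Δ ν u z hm
    refine ⟨z, hz, ⟨Δ, _, hm'⟩, hcomp Δ _ Δ₂ ν₂ z u x hm' h₂ ?_⟩
    intro δ hδ δ' hδ' hne
    have := (fr Δ₂ ν₂ u x h₂ δ (hfar δ hδ)).1 δ' hδ' (Ne.symm hne)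
    rw [D.B_symm]
    exact this

end Pool.CS
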