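import Pool.Agent.Work.MP_64ea0f_cs.InterfaceG1

set_option autoImplicit false

/-! # SAV: standard affine vectors -/

namespace Pool.CS
namespace SAVb
open Finset

variable {D : Rd}

theorem Be (u : D.V) (s : D.S) : D.B u (D.e s) = ∑ t, u t * D.k t s := by
  unfold Rd.B bform Rd.e
  refine Finset.sum_congr rfl fun t _ => ?_
  rw [Finset.sum_eq_single s]
  · rw [Pi.single_eq_same]; ring
  · intro r _ hr
    rw [Pi.single_eq_of_ne hr]; ring
  · intro h; exact absurd (Finset.mem_univ s) h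

theorem Bs (u φ : D.V) : D.B u φ = ∑ s, φ s * D.B u (D.e s) := by
  have h : ∀ s, D.B u (D.e s) = ∑ t, u t * D.k t s := Be u
  rw [Finset.sum_congr rfl fun s _ => by rw [h s]]
  unfold Rd.B bform
  rw [Finset.sum_comm]
  refine Finset.sum_congr rfl fun s _ => ?_
  rw [Finset.mul_sum]
  refine Finset.sum_congr rfl fun t _ => ?_
  ring

theorem ht_smul (t : ℝ) (u : D.V) : D.ht (t • u) = t * D.ht u := by
  unfold Rd.ht
  rw [Finset.mul_sum]
  rfl

theorem ne_zero {u : D.V} (hu : D.Sa u) : u ≠ 0 := by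
  rintro rfl
  have h := hu.2.2.1
  unfold Rd.ht at h
  simp at h

theorem one {u : D.V} (hu : D.Sa u) : ∀ φ ∈ D.Ps, D.B u φ ≤ 0 := by
  intro φ hφ
  rw [Bs]
  refine Finset.sum_nonpos fun s _ => ?_
  exact mul_nonpos_of_nonneg_of_nonpos (hφ.2 s) (hu.1.2 s)

theorem two (psd : Stmt_PSD) {u : D.V} (hu : D.Sa u) (s : D.S) :
    D.B u (D.e s) = 0 ↔ s ∈ D.sp u ∪ D.perp (D.sp u) := by
  obtain ⟨p1, p2, -⟩ := psd D u hu.1 hu.2.1 hu.2.2.2 (ne_zero hu)
  constructor
  · intro h
    by_cases h0 : u s = 0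
    · exact Or.inr (p2 s h0 h)
    · exact Or.inl h0
  · rintro (h | h)
    · exact p1 s h
    · rw [Be]
      refine Finset.sum_eq_zero fun t _ => ?_
      by_cases h0 : u t = 0
      · rw [h0, zero_mul]
      · have := h t h0
        rw [D.symm t s, this, mul_zero]

theorem three (sgn : Stmt_SGN) (csu : Stmt_CSU) (psd : Stmt_PSD) {u : D.V} (hu : D.Sa u) :
    ∀ φ ∈ D.Rt, D.B u φ = 0 → D.In (D.sp u) φ ∨ D.In (D.perp (D.sp u)) φ := by
  have key : ∀ φ ∈ D.Ps, D.B u φ = 0 → D.In (D.sp u) φ ∨ D.In (D.perp (D.sp u)) φ := by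
    intro φ hφ h0
    refine csu D (D.sp u) (D.perp (D.sp u)) (fun s hs t ht => ?_) φ hφ.1 ?_
    · rw [D.symm]; exact ht s hs
    · intro s hs
      rw [Bs] at h0
      have hle : ∀ s ∈ (Finset.univ : Finset D.S), φ s * D.B u (D.e s) ≤ 0 := fun s _ =>
        mul_nonpos_of_nonneg_of_nonpos (hφ.2 s) (hu.1.2 s)
      have h1 := (Finset.sum_eq_zero_iff_of_nonpos hle).1 h0 s (Finset.mem_univ s)
      rcases mul_eq_zero.1 h1 with h2 | h2
      · exact h2
      · exact absurd ((two psd hu s).1 h2) hs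
  intro φ hφ h0
  obtain ⟨s1, -⟩ := sgn D
  rcases s1 φ hφ with h | h
  · exact key φ h h0
  · have h1 : D.B u (-φ) = 0 := by
      rw [Bs] at h0 ⊢
      have : ∑ s, (-φ) s * D.B u (D.e s) = - ∑ s, φ s * D.B u (D.e s) := by
        rw [← Finset.sum_neg_distrib]
        refine Finset.sum_congr rfl fun s _ => ?_
        rw [Pi.neg_apply]; ring
      rw [this, h0, neg_zero]
    rcases key (-φ) h h1 with h2 | h2
    · left
      intro s hs
      have := h2 s hs
      rw [Pi.neg_apply] at this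
      linarith
    · right
      intro s hs
      have := h2 s hs
      rw [Pi.neg_apply] at this
      linarith

theorem four {u φ : D.V} (hφ : D.In (D.perp (D.sp u)) φ) {v : D.V} (hv : D.In (D.sp u) v) :
    D.B v φ = 0 := by
  unfold Rd.B bform
  refine Finset.sum_eq_zero fun s _ => Finset.sum_eq_zero fun t _ => ?_
  by_cases hs : s ∈ D.sp u
  · by_cases ht : t ∈ D.perp (D.sp u)
    · have := ht s hs
      rw [D.symm s t, this, mul_zero]
    · rw [hφ t ht, mul_zero, zero_mul]
  · rw [hv s hs, zero_mul, zero_mul]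

theorem five (psd : Stmt_PSD) {u : D.V} (hu : D.Sa u) {v : D.V} (hv : D.In (D.sp u) v) :
    D.B u v = 0 := by
  rw [Bs]
  refine Finset.sum_eq_zero fun s _ => ?_
  by_cases hs : s ∈ D.sp u
  · rw [(two psd hu s).2 (Or.inl hs), mul_zero]
  · rw [hv s hs, zero_mul]

theorem eight (psd : Stmt_PSD) {u u' : D.V} (hu : D.Sa u) (hu' : D.Sa u') (h : D.In (D.sp u) u') :
    u' = u := by
  obtain ⟨-, -, p3, -⟩ := psd D u hu.1 hu.2.1 hu.2.2.2 (ne_zero hu)
  obtain ⟨t, rfl⟩ := (p3 u' h).2 hu'.2.1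
  have h1 := hu'.2.2.1
  rw [ht_smul, hu.2.2.1, mul_one] at h1
  rw [h1, one_smul]

end SAVb

open SAVb in
theorem sav_thm : Stmt_SGN → Stmt_IMC → Stmt_CSU → Stmt_PSD → Stmt_SAV := by
  intro sgn imc csu psd D
  refine ⟨fun u hu => ⟨one hu, two psd hu, three sgn csu psd hu, fun φ hφ v hv => four hφ hv,
    fun v hv => five psd hu hv, ?_, ?_, fun u' hu' h => eight psd hu hu' h, hu.1.1, ?_⟩, ?_⟩
  · rintro w u' hu' rfl
    obtain ⟨h1, h2⟩ := (imc D).2.2 u hu.1 w hu'.1
    refine ⟨h1, ?_⟩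
    have e : {s | D.B u (D.e s) = 0} = D.sp u ∪ D.perp (D.sp u) := by
      ext s
      exact two psd hu s
    rwa [e] at h2
  · intro w hw
    unfold Rd.par at hw
    induction hw using Subgroup.closure_induction with
    | mem x hx =>
      obtain ⟨s, hs, rfl⟩ := hx
      rw [D.refl]
      have := (two psd hu s).2 hs
      unfold Rd.B Rd.e at this
      rw [this, mul_zero, zero_smul, sub_zero]
    | one => rw [map_one]; rfl
    | mul x y _ _ hx hy => rw [map_mul, Module.End.mul_apply, hy, hx]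
    | inv x _ hx =>
      have : D.ρ x⁻¹ (D.ρ x u) = u := by
        rw [← Module.End.mul_apply, ← map_mul, inv_mul_cancel, map_one, Module.End.one_apply]
      rw [hx] at this
      exact this
  · by_contra hn
    rw [Set.not_nonempty_iff_eq_empty] at hn
    refine ne_zero hu ?_
    funext s
    by_contra h
    have : s ∈ D.sp u := h
    rw [hn] at this
    exact this
  · refine Set.Finite.of_finite_image (f := fun u => D.sp u) (Set.toFinite _) ?_
    intro u hu u' hu' h
    have h' : D.sp u = D.sp u' := h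
    refine eight psd hu' hu ?_
    rw [← h']
    intro s hs
    by_contra h0
    exact hs h0

end Pool.CS
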