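import Pool.Agent.Work.MP_64ea0f_cs.InterfaceC

set_option autoImplicit false

/-! # Block C_RUN (MP_64ea0f_al): the flips made along a word -/

namespace Pool.CS

namespace H23

/-- elements of the subgroup generated by the star of `t` commute with `t` -/
theorem star_comm {Λ : Type} (G : SimpleGraph Λ) (t : Λ) {x : RC G} (hx : x ∈ rsub G (star G t)) :
    rg G t * x = x * rg G t := by
  have h1 : rsub G (star G t) ≤ Subgroup.centralizer {rg G t} := by
    rw [rsub, Subgroup.closure_le]
    rintro _ ⟨b, hb, rfl⟩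
    rw [SetLike.mem_coe, Subgroup.mem_centralizer_iff]
    intro y hy
    rw [Set.mem_singleton_iff] at hy
    subst hy
    rcases hb with hb | hb
    · rw [hb]
    · exact rg_comm hb
  exact Subgroup.mem_centralizer_iff.1 (h1 hx) _ rfl

/-- conjugation by the letter does not change `u` -/
theorem ok_conj {Λ : Type} {G : SimpleGraph Λ} (M : Subgroup (RC G)) [M.Normal] {t : Λ}
    {u : RC G ⧸ M} (h : Ok M t u) :
    (QuotientGroup.mk (rg G t) : RC G ⧸ M) * u * QuotientGroup.mk (rg G t) = u := by
  obtain ⟨x, hx, rfl⟩ := h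
  rw [← QuotientGroup.mk_mul, ← QuotientGroup.mk_mul, star_comm G t hx, mul_assoc, rg_mul_self,
    mul_one]

end H23

theorem c_run_thm : Stmt_C_RUN := by
  intro Λ G H M _ L hL w
  induction w with
  | nil =>
    intro x
    refine ⟨[], List.Sublist.refl _, ?_, ?_, ?_⟩
    · rw [wp_nil, LS.r_one]
      exact Per.Path.nil _ x.1.2
    · rw [wp_nil, LS.r_one, QuotientGroup.mk_one, inv_one, one_mul, mul_one]
    · intro _
      refine ⟨by rw [wp_nil, LS.r_one], ?_⟩
      intro t ht
      simp at ht
  | cons t w ih =>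
    intro x
    rw [LS.r_wp_cons, hL]
    by_cases h : (∃ i, H.s i = t ∧ H.Cut (symmDiff x.1.1 {i})) ∧ Ok M t x.2
    · obtain ⟨⟨i, hi, hc⟩, hok⟩ := h
      subst hi
      rw [H.step_flip M x i hc hok]
      obtain ⟨p, h1, h2, h3, h4⟩ := ih (⟨symmDiff x.1.1 {i}, hc⟩, x.2)
      refine ⟨H.s i :: p, h1.cons_cons _, Per.Path.cons _ i _ _ x.1.2 hc h2, ?_, ?_⟩
      · rw [h3, wp_cons, wp_cons, QuotientGroup.mk_mul, QuotientGroup.mk_mul, mul_inv_rev,
          ← QuotientGroup.mk_inv (M) (rg G (H.s i)), rg_inv]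
        have h5 := H23.ok_conj M hok
        calc (QuotientGroup.mk (wp G w) : RC G ⧸ M)⁻¹ * x.2 * QuotientGroup.mk (wp G p) =
            (QuotientGroup.mk (wp G w) : RC G ⧸ M)⁻¹ *
              (QuotientGroup.mk (rg G (H.s i)) * x.2 * QuotientGroup.mk (rg G (H.s i))) *
              QuotientGroup.mk (wp G p) := by rw [h5]
          _ = _ := by simp only [mul_assoc]
      · intro he
        have he' : p = w := List.tail_eq_of_cons_eq he
        obtain ⟨h5, h6⟩ := h4 he'
        refine ⟨h5, ?_⟩
        intro s hs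
        rcases List.mem_cons.1 hs with rfl | hs'
        · exact hok
        · exact h6 s hs'
    · rw [H.step_not M t x h]
      obtain ⟨p, h1, h2, h3, h4⟩ := ih (x.1, (QuotientGroup.mk (rg G t) : RC G ⧸ M) * x.2)
      refine ⟨p, h1.cons _, h2, ?_, ?_⟩
      · rw [h3, wp_cons, QuotientGroup.mk_mul, mul_inv_rev, ← QuotientGroup.mk_inv (M) (rg G t),
          rg_inv]
        simp only [mul_assoc]
      · intro he
        exfalso
        have h5 := h1.length_le
        rw [he, List.length_cons] at h5
        omega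

end Pool.CS
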