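import Pool.Agent.Work.MP_64ea0f_cs.InterfaceD

set_option autoImplicit false

/-! # Block SMITH (MP_64ea0f_al): Smith theory for towers -/

namespace Pool.CS

namespace H23

section ops
variable {X Y F : Type} [AddCommGroup F]

/-- the operator `N` for odd `i`, `σ - 1` for even `i` -/
def TH (p i : ℕ) (s : X → X) (f : X → F) : X → F :=
  if i % 2 = 1 then fun x => ∑ j ∈ Finset.range p, f (s^[j] x) else fun x => f (s x) - f x

theorem TH_odd {p i : ℕ} (s : X → X) (f : X → F) (h : i % 2 = 1) :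
    TH p i s f = fun x => ∑ j ∈ Finset.range p, f (s^[j] x) := if_pos h

theorem TH_even {p i : ℕ} (s : X → X) (f : X → F) (h : i % 2 = 0) :
    TH p i s f = fun x => f (s x) - f x := if_neg (by omega)

theorem TH_sub (p i : ℕ) (s : X → X) (f g : X → F) :
    TH p i s (fun x => f x - g x) = fun x => TH p i s f x - TH p i s g x := by
  rcases Nat.mod_two_eq_zero_or_one i with h | h
  · rw [TH_even _ _ h, TH_even _ _ h, TH_even _ _ h]
    funext x
    change f (s x) - g (s x) - (f x - g x) = f (s x) - f x - (g (s x) - g x)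
    abel
  · rw [TH_odd _ _ h, TH_odd _ _ h, TH_odd _ _ h]
    funext x
    rw [Finset.sum_sub_distrib]

theorem TH_zero (p i : ℕ) (s : X → X) : TH p i s (fun _ => (0 : F)) = fun _ => 0 := by
  rcases Nat.mod_two_eq_zero_or_one i with h | h
  · rw [TH_even _ _ h]
    simp
  · rw [TH_odd _ _ h]
    simp

theorem TH_TH (p i : ℕ) (s : X → X) (hs : ∀ x, s^[p] x = x) (f : X → F) :
    TH p i s (TH p (i + 1) s f) = fun _ => 0 := by
  rcases Nat.mod_two_eq_zero_or_one i with h | h
  · rw [TH_even _ _ h, TH_odd _ _ (by omega : (i + 1) % 2 = 1)]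
    funext x
    have h1 : ∀ j, f (s^[j] (s x)) = f (s^[j + 1] x) := fun j => by
      rw [Function.iterate_succ_apply]
    simp only [h1]
    rw [← Finset.sum_sub_distrib, Finset.sum_range_sub (fun j => f (s^[j] x)), hs,
      Function.iterate_zero, id, sub_self]
  · rw [TH_odd _ _ h, TH_even _ _ (by omega : (i + 1) % 2 = 0)]
    funext x
    have h1 : ∀ j, f (s (s^[j] x)) = f (s^[j + 1] x) := fun j => by
      rw [Function.iterate_succ_apply']
    simp only [h1]
    rw [Finset.sum_range_sub (fun j => f (s^[j] x)), hs, Function.iterate_zero, id, sub_self]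

theorem TH_comp (p i : ℕ) (s : X → X) (s' : Y → Y) (π : Y → X) (h : ∀ y, π (s' y) = s (π y))
    (f : X → F) : (fun y => TH p i s f (π y)) = TH p i s' (fun y => f (π y)) := by
  have hj : ∀ (j : ℕ) (y : Y), s^[j] (π y) = π (s'^[j] y) := by
    intro j
    induction j with
    | zero => intro y; rfl
    | succ j ih =>
      intro y
      rw [Function.iterate_succ_apply', Function.iterate_succ_apply', ih, h]
  rcases Nat.mod_two_eq_zero_or_one i with h1 | h1
  · rw [TH_even _ _ h1, TH_even _ _ h1]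
    funext y
    change f (s (π y)) - f (π y) = f (π (s' y)) - f (π y)
    rw [h]
  · rw [TH_odd _ _ h1, TH_odd _ _ h1]
    funext y
    change ∑ j ∈ Finset.range p, f (s^[j] (π y)) = ∑ j ∈ Finset.range p, f (π (s'^[j] y))
    exact Finset.sum_congr rfl fun j _ => by rw [hj]

theorem map_TH (p i : ℕ) (s : X → X) (s' : Y → Y) (D : (X → F) →+ (Y → F))
    (h : ∀ f : X → F, D (fun x => f (s x)) = fun y => D f (s' y)) (f : X → F) :
    D (TH p i s f) = TH p i s' (D f) := by
  have hj : ∀ (j : ℕ), D (fun x => f (s^[j] x)) = fun y => D f (s'^[j] y) := by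
    intro j
    induction j with
    | zero => rfl
    | succ j ih =>
      have h1 : (fun x => f (s^[j + 1] x)) = fun x => (fun x' => f (s^[j] x')) (s x) := by
        funext x
        rw [Function.iterate_succ_apply]
      rw [h1, h (fun x' => f (s^[j] x')), ih]
      funext y
      rw [Function.iterate_succ_apply]
  rcases Nat.mod_two_eq_zero_or_one i with h1 | h1
  · rw [TH_even _ _ h1, TH_even _ _ h1]
    have h2 : (fun x => f (s x) - f x) = (fun x => f (s x)) - f := rfl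
    rw [h2, map_sub, h]
    rfl
  · rw [TH_odd _ _ h1, TH_odd _ _ h1]
    have h2 : (fun x => ∑ j ∈ Finset.range p, f (s^[j] x)) =
        ∑ j ∈ Finset.range p, fun x => f (s^[j] x) := by
      funext x
      rw [Finset.sum_apply]
    rw [h2, map_sum]
    funext y
    rw [Finset.sum_apply]
    exact Finset.sum_congr rfl fun j _ => by rw [hj]

end ops

section tower
variable {p : ℕ} {F : Type} [AddCommGroup F] (T : Tow p F)

theorem to0_σ (k : ℕ) : ∀ j (x : T.S j k), T.to0 k j (T.σ j k x) = T.σ 0 k (T.to0 k j x) := by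
  intro j
  induction j with
  | zero => intro x; rfl
  | succ j ih =>
    intro x
    change T.to0 k j (T.pr j k (T.σ (j + 1) k x)) = T.σ 0 k (T.to0 k j (T.pr j k x))
    rw [T.prσ, ih]

theorem δ_to0 (k : ℕ) (f : T.S 0 k → F) : ∀ j, T.δ j k (fun x => f (T.to0 k j x)) =
    fun x => T.δ 0 k f (T.to0 (k + 1) j x) := by
  intro j
  induction j with
  | zero => rfl
  | succ j ih =>
    change T.δ (j + 1) k (fun x => (fun y => f (T.to0 k j y)) (T.pr j k x)) = _
    rw [T.δpr j k (fun y => f (T.to0 k j y)), ih]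
    rfl

/-- the ladder on level `0` -/
theorem ladder (hF : Stmt_SMF) (hp : p.Prime) (f : T.S 0 0 → F) (hinv : ∀ x, f (T.σ 0 0 x) = f x)
    (hE : ∀ e, T.σ 0 1 e = e → T.δ 0 0 f e = 0) :
    ∃ g : ∀ i, T.S 0 i → F, g 0 = f ∧
      ∀ i, T.δ 0 i (g i) = TH p (i + 1) (T.σ 0 (i + 1)) (g (i + 1)) := by
  have step : ∀ i (g : T.S 0 i → F), ((∀ x, T.σ 0 (i + 1) x = x → T.δ 0 i g x = 0) ∧
      TH p i (T.σ 0 (i + 1)) (T.δ 0 i g) = fun _ => 0) → ∃ g' : T.S 0 (i + 1) → F,
      T.δ 0 i g = TH p (i + 1) (T.σ 0 (i + 1)) g' ∧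
      ((∀ x, T.σ 0 (i + 2) x = x → T.δ 0 (i + 1) g' x = 0) ∧
      TH p (i + 1) (T.σ 0 (i + 2)) (T.δ 0 (i + 1) g') = fun _ => 0) := by
    rintro i g ⟨h1, h2⟩
    have hex : ∃ g' : T.S 0 (i + 1) → F, (∀ x, T.σ 0 (i + 1) x = x → g' x = 0) ∧
        T.δ 0 i g = TH p (i + 1) (T.σ 0 (i + 1)) g' := by
      have h3 := hF (T.S 0 (i + 1)) (T.σ 0 (i + 1)) p hp (T.pow 0 (i + 1)) F (T.δ 0 i g) h1
      rcases Nat.mod_two_eq_zero_or_one i with h4 | h4
      · rw [TH_even _ _ h4] at h2
        obtain ⟨g', h5, h6⟩ := h3.1 fun x => sub_eq_zero.1 (congrFun h2 x)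
        refine ⟨g', h5, ?_⟩
        rw [TH_odd _ _ (by omega : (i + 1) % 2 = 1)]
        exact funext h6
      · rw [TH_odd _ _ h4] at h2
        obtain ⟨g', h5, h6⟩ := h3.2 fun x => congrFun h2 x
        refine ⟨g', h5, ?_⟩
        rw [TH_even _ _ (by omega : (i + 1) % 2 = 0)]
        exact funext h6
    obtain ⟨g', h5, h6⟩ := hex
    refine ⟨g', h6, T.loc 0 (i + 1) g' h5, ?_⟩
    rw [← map_TH p (i + 1) (T.σ 0 (i + 1)) (T.σ 0 (i + 2)) (T.δ 0 (i + 1)) (T.δσ 0 (i + 1)) g', ← h6,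
      T.δδ]
    rfl
  choose st hst using step
  have h0 : (∀ x, T.σ 0 1 x = x → T.δ 0 0 f x = 0) ∧
      TH p 0 (T.σ 0 1) (T.δ 0 0 f) = fun _ => 0 := by
    refine ⟨hE, ?_⟩
    rw [← map_TH p 0 (T.σ 0 0) (T.σ 0 1) (T.δ 0 0) (T.δσ 0 0) f, TH_even _ _ rfl]
    have h1 : (fun x => f (T.σ 0 0 x) - f x) = 0 := by
      funext x
      rw [hinv]
      exact sub_self _
    rw [h1, map_zero]
    rfl
  let sq : ∀ i, {g : T.S 0 i → F // (∀ x, T.σ 0 (i + 1) x = x → T.δ 0 i g x = 0) ∧
      TH p i (T.σ 0 (i + 1)) (T.δ 0 i g) = fun _ => 0} := fun i =>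
    Nat.rec ⟨f, h0⟩ (fun i g => ⟨st i g.1 g.2, (hst i g.1 g.2).2⟩) i
  exact ⟨fun i => (sq i).1, rfl, fun i => (hst i (sq i).1 (sq i).2).1⟩

end tower

end H23

theorem smith_thm : Stmt_SMF → Stmt_SMITH := by
  intro hF p _ T d van hempty hconst f hinv hE a b ha hb
  have hp : p.Prime := Fact.out
  obtain ⟨g, hg0, hg⟩ := H23.ladder T hF hp f hinv hE
  have key : ∀ t i : ℕ, i + t = d → ∃ k : T.S t i → ZMod p,
      T.δ t i (fun x => g i (T.to0 i t x) - H23.TH p (i + 1) (T.σ t i) k x) = 0 := by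
    intro t
    induction t with
    | zero =>
      intro i hi
      have hi' : i = d := by omega
      subst hi'
      refine ⟨fun _ => 0, ?_⟩
      funext x
      exact hempty.elim x
    | succ t ih =>
      intro i hi
      obtain ⟨k', hk'⟩ := ih (i + 1) (by omega)
      obtain ⟨k, hk⟩ := van t i (by omega) (by omega) _ hk'
      refine ⟨k, ?_⟩
      have e1 : (fun x => g i (T.to0 i (t + 1) x) - H23.TH p (i + 1) (T.σ (t + 1) i) k x) =
          (fun x => g i (T.to0 i (t + 1) x)) - H23.TH p (i + 1) (T.σ (t + 1) i) k := rfl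
      rw [e1, map_sub, H23.δ_to0, hg i,
        H23.map_TH p (i + 1) (T.σ (t + 1) i) (T.σ (t + 1) (i + 1)) (T.δ (t + 1) i)
          (T.δσ (t + 1) i) k, hk]
      have e2 := H23.TH_comp p (i + 1) (T.σ 0 (i + 1)) (T.σ (t + 1) (i + 1))
        (T.to0 (i + 1) (t + 1)) (H23.to0_σ T (i + 1) (t + 1)) (g (i + 1))
      have e3 := H23.TH_comp p (i + 2) (T.σ t (i + 1)) (T.σ (t + 1) (i + 1)) (T.pr t (i + 1))
        (T.prσ t (i + 1)) k'
      rw [e2, H23.TH_sub]
      funext x
      have e4 : H23.TH p (i + 1) (T.σ (t + 1) (i + 1))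
          (fun x => H23.TH p (i + 1 + 1) (T.σ t (i + 1)) k' (T.pr t (i + 1) x)) x = 0 := by
        have e5 := H23.TH_TH p (i + 1) (T.σ (t + 1) (i + 1)) (T.pow (t + 1) (i + 1))
          (fun y => k' (T.pr t (i + 1) y))
        rw [← e3] at e5
        exact congrFun e5 x
      change H23.TH p (i + 1) (T.σ (t + 1) (i + 1))
          (fun y => g (i + 1) (T.to0 (i + 1) (t + 1) y)) x -
        (H23.TH p (i + 1) (T.σ (t + 1) (i + 1))
          (fun y => g (i + 1) (T.to0 (i + 1) (t + 1) y)) x -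
        H23.TH p (i + 1) (T.σ (t + 1) (i + 1))
          (fun x => H23.TH p (i + 1 + 1) (T.σ t (i + 1)) k' (T.pr t (i + 1) x)) x) = 0
      rw [e4, sub_zero, sub_self]
  obtain ⟨k, hk⟩ := key d 0 (by omega)
  have h1 := hconst _ hk a b
  have hfix : ∀ c : T.S d 0, T.σ d 0 c = c → H23.TH p (0 + 1) (T.σ d 0) k c = 0 := by
    intro c hc
    rw [H23.TH_odd _ _ rfl]
    have h2 : ∀ j : ℕ, (T.σ d 0)^[j] c = c := by
      intro j
      exact Function.iterate_fixed hc j
    simp only [h2, Finset.sum_const, Finset.card_range, nsmul_eq_mul, CharP.cast_eq_zero, zero_mul]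
  simp only [hfix a ha, hfix b hb, sub_zero, hg0] at h1
  exact h1

end Pool.CS
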