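import Pool.Agent.Work.MP_64ea0f_cs.InterfaceB

set_option autoImplicit false

/-! # Block VX3 (MP_64ea0f_al): two roots at a vertex of the cubing -/

namespace Pool.CS

namespace H23

/-- The second item of `Stmt_VX3`, for a set `x` all of whose elements are roots. -/
theorem two (hB : Stmt_BAS) (hN : Stmt_NST) (D : Rd) (x : Set D.V) (hx : D.Vx x) (φ ψ : D.V)
    (h1 : D.Mn x φ) (h2 : D.Mn x ψ) (h : |D.B φ ψ| < 1) :
    D.Mn (D.fl x φ) ψ ∧ D.fl (D.fl x φ) ψ = D.fl (D.fl x ψ) φ := by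
  obtain ⟨bsymm, blin, -, -, -, bone, -, -, bneg, -⟩ := hB D
  have hφ : φ ∈ D.Rt := hx.sub h1.1
  have hψ : ψ ∈ D.Rt := hx.sub h2.1
  have hnegl : D.B (-φ) ψ = -D.B φ ψ := by
    have := blin (-1) 0 φ 0 ψ
    simpa using this
  have habs := abs_lt.1 h
  have hne : φ ≠ ψ := by
    rintro rfl
    rw [bone _ hφ] at habs
    linarith [habs.2]
  have hne' : -φ ≠ ψ := by
    intro he
    have h3 := bone _ hψ
    rw [← he] at h3
    have h4 : D.B (-φ) (-φ) = -D.B φ (-φ) := by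
      have := blin (-1) 0 φ 0 (-φ)
      simpa using this
    rw [he] at h4
    rw [he] at h3
    linarith [habs.1]
  have hne'' : -ψ ≠ φ := fun he => hne' (by rw [← he, neg_neg])
  refine ⟨⟨?_, ?_⟩, ?_⟩
  · exact Set.mem_insert_of_mem _ ⟨h2.1, fun he => hne (Set.mem_singleton_iff.1 he).symm⟩
  · intro χ hχ hs
    rcases Set.mem_insert_iff.1 hχ with he | hχ'
    · exfalso
      rw [he] at hs
      have h3 := (hN D (-φ) (bneg _ hφ) ψ hψ).1 hs hne'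
      rw [hnegl] at h3
      linarith [habs.1]
    · exact h2.2 χ hχ'.1 hs
  · ext χ
    unfold Rd.fl
    simp only [Set.mem_insert_iff, Set.mem_sdiff, Set.mem_singleton_iff]
    constructor
    · rintro (he | ⟨he | ⟨h3, h4⟩, h5⟩)
      · exact Or.inr ⟨Or.inl he, fun h6 => hne'' (he ▸ h6)⟩
      · exact Or.inl he
      · exact Or.inr ⟨Or.inr ⟨h3, h5⟩, h4⟩
    · rintro (he | ⟨he | ⟨h3, h4⟩, h5⟩)
      · exact Or.inr ⟨Or.inl he, fun h6 => hne' (he ▸ h6)⟩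
      · exact Or.inl he
      · exact Or.inr ⟨Or.inr ⟨h3, h5⟩, h4⟩

end H23

theorem vx3_thm : Stmt_BAS → Stmt_VX1 → Stmt_VX2 → Stmt_NST → Stmt_VX3 := by
  intro hB hV1 hV2 hN D x hx φ ψ
  obtain ⟨bsymm, blin, -, -, -, bone, -, -, bneg, -⟩ := hB D
  obtain ⟨-, -, -, -, -, -, -, -, vneg, vup, -⟩ := hV1 D
  have hnegl : D.B (-φ) ψ = -D.B φ ψ := by
    have := blin (-1) 0 φ 0 ψ
    simpa using this
  have H1 : D.Mn x φ → D.Mn x ψ → φ ≠ ψ → |D.B φ ψ| < 1 ∨ (D.B φ ψ ≤ -1 ∧ D.Sub (-φ) ψ) := by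
    intro h1 h2 hne
    have hφ : φ ∈ D.Rt := hx.sub h1.1
    have hψ : ψ ∈ D.Rt := hx.sub h2.1
    by_cases h : |D.B φ ψ| < 1
    · exact Or.inl h
    · right
      rcases le_abs.1 (not_lt.1 h) with h3 | h3
      · exfalso
        rcases (hN D φ hφ ψ hψ).2.1 h3 with h4 | h4
        · exact hne (h2.2 φ h1.1 h4)
        · exact hne (h1.2 ψ h2.1 h4).symm
      · refine ⟨by linarith, ?_⟩
        rcases (hN D (-φ) (bneg _ hφ) ψ hψ).2.1 (by rw [hnegl]; exact h3) with h4 | h4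
        · exact h4
        · exact absurd (vup x hx ψ h2.1 (-φ) (bneg _ hφ) h4) (vneg x hx φ h1.1)
  refine ⟨H1, H23.two hB hN D x hx φ ψ, ?_, ?_⟩
  · intro h1 h2 _ h
    obtain ⟨f1, f2, f3, -, -⟩ := hV2 D x hx φ h1
    have h3 := (H23.two hB hN D (D.fl x φ) f1 (-φ) ψ f2 h2 (by rw [hnegl, abs_neg]; exact h)).1
    rw [f3] at h3
    exact h3
  · intro h1 h2 h3 hne
    rcases H1 h1 h2 hne with h | ⟨-, h⟩
    · exact h
    · exfalso
      have h4 : -φ = ψ := h3.2 (-φ) (Set.mem_insert _ _) h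
      exact vneg x hx φ h1.1 (h4 ▸ h2.1)

end Pool.CS
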