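import Pool.Agent.Work.MP_64ea0f_cs.InterfaceD2

set_option autoImplicit false

/-! # Block TSB (MP_64ea0f_al): the tower of a decreasing sequence of normal subgroups -/

namespace Pool.CS

namespace H23TSB

section
variable {Λ Y Γ F : Type} [Group Γ] [MulAction Γ Y] [AddCommGroup F] {G : SimpleGraph Λ} (L : LS G Y)

/-- simplices of dimension `k` -/
def Smp (k : ℕ) : Type := {x : Y × List (Set Λ) // Fl G (mvs L x.1) x.2 ∧ x.2.length = k + 1}

/-- the elements of `M` commute with the flips -/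
def Cm (M : Subgroup Γ) : Prop := ∀ m ∈ M, ∀ s y, m • L.τ s y = L.τ s (m • y)

theorem foldr_rev (w : List Λ) (y : Y) : w.reverse.foldr L.τ (w.foldr L.τ y) = y := by
  induction w with
  | nil => rfl
  | cons s w ih =>
    rw [List.reverse_cons, List.foldr_append, List.foldr_cons, List.foldr_cons, List.foldr_nil,
      L.inv, ih]

theorem smul_foldr {m : Γ} (hm : ∀ s y, m • L.τ s y = L.τ s (m • y)) (w : List Λ) (y : Y) :
    m • w.foldr L.τ y = w.foldr L.τ (m • y) := by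
  induction w with
  | nil => rfl
  | cons s w ih => rw [List.foldr_cons, List.foldr_cons, hm, ih]

theorem eqm_refl (M : Subgroup Γ) (l : List (Set Λ)) (y : Y) : Eqm L M l y y :=
  ⟨1, M.one_mem, [], fun _ h => absurd h (by simp), (one_smul Γ y).symm⟩

theorem eqm_symm {M : Subgroup Γ} (hM : Cm L M) {l : List (Set Λ)} {y y' : Y}
    (h : Eqm L M l y y') : Eqm L M l y' y := by
  obtain ⟨m, hm, w, hw, rfl⟩ := h
  refine ⟨m⁻¹, M.inv_mem hm, w.reverse, fun s hs => hw s (List.mem_reverse.1 hs), ?_⟩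
  rw [← smul_foldr L (hM m hm) w.reverse, inv_smul_smul, foldr_rev]

theorem eqm_trans {M : Subgroup Γ} (hM : Cm L M) {l : List (Set Λ)} {y y' y'' : Y}
    (h : Eqm L M l y y') (h' : Eqm L M l y' y'') : Eqm L M l y y'' := by
  obtain ⟨m, hm, w, hw, rfl⟩ := h
  obtain ⟨m', hm', w', hw', rfl⟩ := h'
  refine ⟨m' * m, M.mul_mem hm' hm, w' ++ w, ?_, ?_⟩
  · intro s hs
    rcases List.mem_append.1 hs with hs | hs
    · exact hw' s hs
    · exact hw s hs
  · rw [List.foldr_append, mul_smul, smul_foldr L (hM m hm) w']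

theorem eqm_mono {M : Subgroup Γ} {l l' : List (Set Λ)} (hl : ∀ I ∈ l', I ∈ l) {y y' : Y}
    (h : Eqm L M l y y') : Eqm L M l' y y' := by
  obtain ⟨m, hm, w, hw, he⟩ := h
  exact ⟨m, hm, w, fun s hs I hI => hw s hs I (hl I hI), he⟩

theorem eqm_le {M M' : Subgroup Γ} (hle : M ≤ M') {l : List (Set Λ)} {y y' : Y}
    (h : Eqm L M l y y') : Eqm L M' l y y' := by
  obtain ⟨m, hm, w, hw, he⟩ := h
  exact ⟨m, hle hm, w, hw, he⟩

/-- simplices modulo `M` -/
def stg (M : Subgroup Γ) (hM : Cm L M) (k : ℕ) : Setoid (Smp L k) where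
  r x y := x.1.2 = y.1.2 ∧ Eqm L M x.1.2 x.1.1 y.1.1
  iseqv :=
    { refl := fun x => ⟨rfl, eqm_refl L M _ _⟩
      symm := fun {x y} h => ⟨h.1.symm, by rw [← h.1]; exact eqm_symm L hM h.2⟩
      trans := fun {x y z} h h' => ⟨h.1.trans h'.1, eqm_trans L hM h.2 (by rw [h.1]; exact h'.2)⟩ }

/-- the set of simplices modulo `M` -/
abbrev Qt (M : Subgroup Γ) (hM : Cm L M) (k : ℕ) : Type := Quotient (stg L M hM k)

/-- the class of a simplex -/
def mkq (M : Subgroup Γ) (hM : Cm L M) (k : ℕ) (y : Y) (l : List (Set Λ))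
    (h : Fl G (mvs L y) l ∧ l.length = k + 1) : Qt L M hM k := Quotient.mk (stg L M hM k) ⟨(y, l), h⟩

theorem mkq_eq (M : Subgroup Γ) (hM : Cm L M) (k : ℕ) (y : Y) (l : List (Set Λ))
    (h : Fl G (mvs L y) l ∧ l.length = k + 1) (y' : Y) (l' : List (Set Λ))
    (h' : Fl G (mvs L y') l' ∧ l'.length = k + 1) :
    mkq L M hM k y l h = mkq L M hM k y' l' h' ↔ l = l' ∧ Eqm L M l y y' := by
  constructor
  · intro he
    exact Quotient.exact he
  · intro he
    exact Quotient.sound (s := stg L M hM k) he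

theorem exists_mkq (M : Subgroup Γ) (hM : Cm L M) (k : ℕ) (x : Qt L M hM k) :
    ∃ y l h, x = mkq L M hM k y l h := by
  obtain ⟨⟨⟨y, l⟩, h⟩, hx⟩ := Quotient.exists_rep x
  exact ⟨y, l, h, hx.symm⟩

open Classical in
/-- extension of a function on classes of simplices -/
noncomputable def ex (M : Subgroup Γ) (hM : Cm L M) (k : ℕ) (f : Qt L M hM k → F) (y : Y)
    (l' : List (Set Λ)) : F :=
  if h' : Fl G (mvs L y) l' ∧ l'.length = k + 1 then f (mkq L M hM k y l' h') else 0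

theorem ex_pos (M : Subgroup Γ) (hM : Cm L M) (k : ℕ) (f : Qt L M hM k → F) (y : Y)
    (l' : List (Set Λ)) (h : Fl G (mvs L y) l' ∧ l'.length = k + 1) :
    ex L M hM k f y l' = f (mkq L M hM k y l' h) := dif_pos h

/-- the faces are simplices -/
theorem face {k : ℕ} {y : Y} {l l' : List (Set Λ)}
    (h : Fl G (mvs L y) l ∧ l.length = k + 1 + 1) (h1 : l'.Sublist l)
    (h2 : l'.length + 1 = l.length) : Fl G (mvs L y) l' ∧ l'.length = k + 1 :=
  ⟨h.1.sublist h1, by omega⟩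

/-- the coboundary -/
noncomputable def dl (M : Subgroup Γ) (hM : Cm L M) (k : ℕ) (f : Qt L M hM k → F) :
    Qt L M hM (k + 1) → F :=
  Quotient.lift (fun x : Smp L (k + 1) => del (ex L M hM k f x.1.1) x.1.2) (by
    rintro ⟨⟨y, l⟩, h⟩ ⟨⟨y', l'⟩, h'⟩ ⟨h1, h2⟩
    change l = l' at h1
    change Eqm L M l y y' at h2
    subst h1
    change del (ex L M hM k f y) l = del (ex L M hM k f y') l
    refine del_congr fun l' h3 h4 => ?_
    rw [ex_pos L M hM k f y l' (face L h h3 h4), ex_pos L M hM k f y' l' (face L h' h3 h4)]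
    congr 1
    rw [mkq_eq]
    exact ⟨rfl, eqm_mono L (fun I hI => h3.subset hI) h2⟩)

theorem dl_mkq (M : Subgroup Γ) (hM : Cm L M) (k : ℕ) (f : Qt L M hM k → F) (y : Y)
    (l : List (Set Λ)) (h : Fl G (mvs L y) l ∧ l.length = k + 1 + 1) :
    dl L M hM k f (mkq L M hM (k + 1) y l h) = del (ex L M hM k f y) l := rfl

/-- the coboundary as an additive map -/
noncomputable def dla (M : Subgroup Γ) (hM : Cm L M) (k : ℕ) :
    (Qt L M hM k → F) →+ (Qt L M hM (k + 1) → F) where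
  toFun := dl L M hM k
  map_zero' := by
    funext x
    obtain ⟨y, l, h, rfl⟩ := exists_mkq L M hM (k + 1) x
    rw [dl_mkq]
    refine del_eq_zero fun l' h3 h4 => ?_
    rw [ex_pos L M hM k _ y l' (face L h h3 h4)]
    rfl
  map_add' f g := by
    funext x
    obtain ⟨y, l, h, rfl⟩ := exists_mkq L M hM (k + 1) x
    rw [Pi.add_apply, dl_mkq, dl_mkq, dl_mkq, ← del_add]
    refine del_congr fun l' h3 h4 => ?_
    rw [ex_pos L M hM k _ y l' (face L h h3 h4), ex_pos L M hM k _ y l' (face L h h3 h4),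
      ex_pos L M hM k _ y l' (face L h h3 h4)]
    rfl

theorem dla_mkq (M : Subgroup Γ) (hM : Cm L M) (k : ℕ) (f : Qt L M hM k → F) (y : Y)
    (l : List (Set Λ)) (h : Fl G (mvs L y) l ∧ l.length = k + 1 + 1) :
    dla L M hM k f (mkq L M hM (k + 1) y l h) = del (ex L M hM k f y) l := rfl

theorem dla_dla (M : Subgroup Γ) (hM : Cm L M) (k : ℕ) (f : Qt L M hM k → F) :
    dla L M hM (k + 1) (dla L M hM k f) = 0 := by
  funext x
  obtain ⟨y, l, h, rfl⟩ := exists_mkq L M hM (k + 1 + 1) x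
  rw [dla_mkq, Pi.zero_apply, ← del_del (ex L M hM k f y) l]
  refine del_congr fun l' h3 h4 => ?_
  rw [ex_pos L M hM (k + 1) _ y l' (face L h h3 h4), dla_mkq]

/-- the projection -/
def prq (M M' : Subgroup Γ) (hM : Cm L M) (hM' : Cm L M') (hle : M' ≤ M) (k : ℕ) :
    Qt L M' hM' k → Qt L M hM k :=
  Quotient.lift (fun x : Smp L k => Quotient.mk (stg L M hM k) x) (by
    intro x y h
    exact Quotient.sound (s := stg L M hM k) ⟨h.1, eqm_le L hle h.2⟩)

theorem prq_mkq (M M' : Subgroup Γ) (hM : Cm L M) (hM' : Cm L M') (hle : M' ≤ M) (k : ℕ) (y : Y)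
    (l : List (Set Λ)) (h : Fl G (mvs L y) l ∧ l.length = k + 1) :
    prq L M M' hM hM' hle k (mkq L M' hM' k y l h) = mkq L M hM k y l h := rfl

/-- the image of a simplex under an automorphism -/
theorem fl_map {σ : Γ} {a : Equiv.Perm Λ} (heqv : ∀ s y, σ • L.τ s y = L.τ (a s) (σ • y))
    (hadj : ∀ s t, G.Adj s t → G.Adj (a s) (a t)) {k : ℕ} {y : Y} {l : List (Set Λ)}
    (h : Fl G (mvs L y) l ∧ l.length = k + 1) :
    Fl G (mvs L (σ • y)) (l.map fun I => a '' I) ∧ (l.map fun I => a '' I).length = k + 1 := by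
  refine ⟨⟨?_, ?_⟩, by rw [List.length_map]; exact h.2⟩
  · rw [List.pairwise_map]
    refine h.1.1.imp fun {I J} hIJ => ?_
    rw [Set.ssubset_iff_subset_ne] at hIJ ⊢
    exact ⟨Set.image_mono hIJ.1, fun he => hIJ.2 (Set.image_injective.2 a.injective he)⟩
  · intro J hJ
    obtain ⟨I, hI, rfl⟩ := List.mem_map.1 hJ
    obtain ⟨h1, h2⟩ := h.1.2 I hI
    refine ⟨?_, ?_⟩
    · rintro _ ⟨s, hs, rfl⟩ _ ⟨t, ht, rfl⟩ hst
      exact hadj s t (h1 hs ht fun he => hst (by rw [he]))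
    · rintro _ ⟨s, hs, rfl⟩
      change L.τ (a s) (σ • y) ≠ σ • y
      rw [← heqv]
      exact fun he => h2 hs (smul_left_cancel σ he)

/-- the map on simplices -/
def smpσ {σ : Γ} {a : Equiv.Perm Λ} (heqv : ∀ s y, σ • L.τ s y = L.τ (a s) (σ • y))
    (hadj : ∀ s t, G.Adj s t → G.Adj (a s) (a t)) (k : ℕ) (x : Smp L k) : Smp L k :=
  ⟨(σ • x.1.1, x.1.2.map fun I => a '' I), fl_map L heqv hadj x.2⟩

theorem foldr_map {σ : Γ} {a : Equiv.Perm Λ} (heqv : ∀ s y, σ • L.τ s y = L.τ (a s) (σ • y))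
    (w : List Λ) (y : Y) : σ • w.foldr L.τ y = (w.map a).foldr L.τ (σ • y) := by
  induction w with
  | nil => rfl
  | cons s w ih => rw [List.foldr_cons, List.map_cons, List.foldr_cons, heqv, ih]

theorem eqm_map {σ : Γ} {a : Equiv.Perm Λ} (heqv : ∀ s y, σ • L.τ s y = L.τ (a s) (σ • y))
    {M : Subgroup Γ} (hN : M.Normal) {l : List (Set Λ)} {y y' : Y} (h : Eqm L M l y y') :
    Eqm L M (l.map fun I => a '' I) (σ • y) (σ • y') := by
  obtain ⟨m, hm, w, hw, rfl⟩ := h
  refine ⟨σ * m * σ⁻¹, hN.conj_mem m hm σ, w.map a, ?_, ?_⟩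
  · intro s hs J hJ
    obtain ⟨t, ht, rfl⟩ := List.mem_map.1 hs
    obtain ⟨I, hI, rfl⟩ := List.mem_map.1 hJ
    exact ⟨t, hw t ht I hI, rfl⟩
  · rw [← foldr_map L heqv, ← mul_smul, ← mul_smul]
    congr 1
    group

/-- the map on classes -/
def qσ {σ : Γ} {a : Equiv.Perm Λ} (heqv : ∀ s y, σ • L.τ s y = L.τ (a s) (σ • y))
    (hadj : ∀ s t, G.Adj s t → G.Adj (a s) (a t)) (M : Subgroup Γ) (hM : Cm L M) (hN : M.Normal)
    (k : ℕ) : Qt L M hM k → Qt L M hM k :=
  Quotient.lift (fun x : Smp L k => Quotient.mk (stg L M hM k) (smpσ L heqv hadj k x)) (by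
    intro x y h
    refine Quotient.sound (s := stg L M hM k) ⟨?_, eqm_map L heqv hN h.2⟩
    change List.map _ x.1.2 = List.map _ y.1.2
    rw [h.1])

theorem qσ_mkq {σ : Γ} {a : Equiv.Perm Λ} (heqv : ∀ s y, σ • L.τ s y = L.τ (a s) (σ • y))
    (hadj : ∀ s t, G.Adj s t → G.Adj (a s) (a t)) (M : Subgroup Γ) (hM : Cm L M) (hN : M.Normal)
    (k : ℕ) (y : Y) (l : List (Set Λ)) (h : Fl G (mvs L y) l ∧ l.length = k + 1) :
    qσ L heqv hadj M hM hN k (mkq L M hM k y l h) =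
      mkq L M hM k (σ • y) (l.map fun I => a '' I) (fl_map L heqv hadj h) := rfl

/-- iterates on simplices -/
theorem iter_smpσ {σ : Γ} (al : Γ →* Equiv.Perm Λ)
    (heqv : ∀ s y, σ • L.τ s y = L.τ (al σ s) (σ • y))
    (hadj : ∀ s t, G.Adj s t → G.Adj (al σ s) (al σ t)) (k : ℕ) (n : ℕ) (x : Smp L k) :
    ((smpσ L heqv hadj k)^[n] x).1 = (σ ^ n • x.1.1, x.1.2.map fun I => al (σ ^ n) '' I) := by
  induction n with
  | zero =>
    rw [Function.iterate_zero, id, pow_zero, one_smul, map_one]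
    have : (fun I : Set Λ => ((1 : Equiv.Perm Λ) : Λ → Λ) '' I) = id := by
      funext I
      exact Set.image_id I
    rw [this, List.map_id]
  | succ n ih =>
    rw [Function.iterate_succ_apply']
    change (σ • ((smpσ L heqv hadj k)^[n] x).1.1,
      ((smpσ L heqv hadj k)^[n] x).1.2.map fun I => al σ '' I) = _
    rw [ih, pow_succ', mul_smul, List.map_map]
    congr 1
    refine List.map_congr_left fun I _ => ?_
    change al σ '' (al (σ ^ n) '' I) = al (σ * σ ^ n) '' I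
    rw [map_mul, Equiv.Perm.coe_mul, Set.image_comp]

theorem iter_qσ {σ : Γ} {a : Equiv.Perm Λ} (heqv : ∀ s y, σ • L.τ s y = L.τ (a s) (σ • y))
    (hadj : ∀ s t, G.Adj s t → G.Adj (a s) (a t)) (M : Subgroup Γ) (hM : Cm L M) (hN : M.Normal)
    (k : ℕ) (n : ℕ) (x : Smp L k) :
    (qσ L heqv hadj M hM hN k)^[n] (Quotient.mk (stg L M hM k) x) =
      Quotient.mk (stg L M hM k) ((smpσ L heqv hadj k)^[n] x) := by
  induction n with
  | zero => rfl
  | succ n ih => rw [Function.iterate_succ_apply', Function.iterate_succ_apply', ih]; rfl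

end

end H23TSB

open H23TSB in
theorem tsb_thm : Stmt_TSB := by
  intro Λ G p F _ Y L Γ _ _ al M κ c hG σ hσ Ms hMs hN hle
  have hC : ∀ j, Cm L (Ms j) := by
    intro j m hm s y
    have h1 := hG.eqv m s y
    rw [hG.triv m (hMs j hm)] at h1
    exact h1
  have heqv : ∀ s y, σ • L.τ s y = L.τ (al σ s) (σ • y) := hG.eqv σ
  have hadj : ∀ s t, G.Adj s t → G.Adj (al σ s) (al σ t) := hG.adj σ
  refine ⟨{ S := fun j k => Qt L (Ms j) (hC j) k
            pr := fun j k => prq L (Ms j) (Ms (j + 1)) (hC j) (hC (j + 1)) (hle j) k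
            σ := fun j k => qσ L heqv hadj (Ms j) (hC j) (hN j) k
            δ := fun j k => dla L (Ms j) (hC j) k
            pow := ?_, prσ := ?_, δδ := ?_, δσ := ?_, δpr := ?_, loc := ?_ },
          fun j k y l h => mkq L (Ms j) (hC j) k y l h, ?_, ?_, ?_, ?_, ?_⟩
  · -- pow
    intro j k x
    obtain ⟨x, rfl⟩ := Quotient.exists_rep x
    rw [iter_qσ L heqv hadj (Ms j) (hC j) (hN j) k p x]
    congr 1
    apply Subtype.ext
    rw [iter_smpσ L al heqv hadj k p x, hσ, one_smul, map_one]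
    have : (fun I : Set Λ => ((1 : Equiv.Perm Λ) : Λ → Λ) '' I) = id := by
      funext I
      exact Set.image_id I
    rw [this, List.map_id]
  · -- prσ
    intro j k x
    obtain ⟨y, l, h, rfl⟩ := exists_mkq L _ _ _ x
    rfl
  · -- δδ
    intro j k f
    exact dla_dla L (Ms j) (hC j) k f
  · -- δσ
    intro j k f
    funext x
    obtain ⟨y, l, h, rfl⟩ := exists_mkq L _ _ _ x
    rw [qσ_mkq, dla_mkq, dla_mkq, ← del_map]
    refine del_congr fun l' h3 h4 => ?_
    have h5 := face L h h3 h4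
    rw [ex_pos L (Ms j) (hC j) k _ y l' h5,
      ex_pos L (Ms j) (hC j) k _ (σ • y) _ (fl_map L heqv hadj h5)]
    rfl
  · -- δpr
    intro j k f
    funext x
    obtain ⟨y, l, h, rfl⟩ := exists_mkq L _ _ _ x
    rw [prq_mkq, dla_mkq, dla_mkq]
    refine del_congr fun l' h3 h4 => ?_
    have h5 := face L h h3 h4
    rw [ex_pos L _ _ k _ y l' h5, ex_pos L _ _ k _ y l' h5]
    rfl
  · -- loc
    intro j k f hf x hx
    obtain ⟨y, l, h, rfl⟩ := exists_mkq L _ _ _ x
    rw [qσ_mkq, mkq_eq] at hx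
    obtain ⟨hx1, hx2⟩ := hx
    rw [dla_mkq]
    refine del_eq_zero fun l' h3 h4 => ?_
    have h5 := face L h h3 h4
    rw [ex_pos L _ _ k _ y l' h5]
    apply hf
    rw [qσ_mkq, mkq_eq]
    have h6 : ∀ I ∈ l, al σ '' I = I := by
      intro I hI
      have h7 : l.map (fun I => al σ '' I) = l.map id := by rw [hx1, List.map_id]
      exact List.map_inj_left.1 h7 I hI
    have h8 : l'.map (fun I => al σ '' I) = l' := by
      have h9 : l'.map (fun I => al σ '' I) = l'.map id :=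
        List.map_congr_left fun I hI => h6 I (h3.subset hI)
      rw [h9, List.map_id]
    refine ⟨h8, ?_⟩
    rw [h8]
    rw [hx1] at hx2
    exact eqm_mono L (fun I hI => h3.subset hI) hx2
  · intro j k x
    exact exists_mkq L _ _ _ x
  · intro j k y l h y' l' h'
    exact mkq_eq L _ _ _ _ _ _ _ _ _
  · intro j k y l h
    rfl
  · intro j k y l h
    exact ⟨fl_map L heqv hadj h, rfl⟩
  · intro j k f y l h
    rfl

end Pool.CS
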